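import Mathlib
set_option autoImplicit false

/-! Gluing of actions on `Ω × ℤ` (finite sets with integer valued cocycles) along a virtually
cyclic group, and finite generation of point stabilisers. -/

namespace Pool.Agent.X260.Glue

universe u

/-- permutations of `Ω × ℤ` commuting with the translations of `ℤ` -/
def TP (Ω : Type u) : Subgroup (Equiv.Perm (Ω × ℤ)) where
  carrier := {f | ∀ (p : Ω × ℤ) (k : ℤ), f (p.1, p.2 + k) = ((f p).1, (f p).2 + k)}
  one_mem' := fun _ _ => rfl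
  mul_mem' := by
    intro f g hf hg p k
    show f (g _) = ((f (g p)).1, (f (g p)).2 + k)
    rw [hg p k, hf (g p) k]
  inv_mem' := by
    intro f hf p k
    show f.symm _ = ((f.symm p).1, (f.symm p).2 + k)
    rw [Equiv.symm_apply_eq, hf (f.symm p) k, Equiv.apply_symm_apply]

/-- application -/
def ap {Ω : Type u} (f : TP Ω) (p : Ω × ℤ) : Ω × ℤ := f.1 p

section TPbasic
variable {Ω Ω' : Type u}

theorem ap_ext {f g : TP Ω} (h : ∀ p, ap f p = ap g p) : f = g :=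
  Subtype.ext (Equiv.ext h)

theorem ap_one (p : Ω × ℤ) : ap (1 : TP Ω) p = p := rfl
theorem ap_mul (f g : TP Ω) (p : Ω × ℤ) : ap (f * g) p = ap f (ap g p) := rfl
theorem ap_inv_ap (f : TP Ω) (p : Ω × ℤ) : ap f⁻¹ (ap f p) = p := f.1.symm_apply_apply p
theorem ap_ap_inv (f : TP Ω) (p : Ω × ℤ) : ap f (ap f⁻¹ p) = p := f.1.apply_symm_apply p
theorem ap_inv_eq (f : TP Ω) (p q : Ω × ℤ) : ap f⁻¹ p = q ↔ p = ap f q := by
  constructor
  · rintro rfl; rw [ap_ap_inv]
  · rintro rfl; rw [ap_inv_ap]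
theorem ap_shift (f : TP Ω) (p : Ω × ℤ) (k : ℤ) : ap f (p.1, p.2 + k) = ((ap f p).1, (ap f p).2 + k) :=
  f.2 p k
theorem ap_eq (f : TP Ω) (p : Ω × ℤ) : ap f p = ((ap f (p.1, 0)).1, (ap f (p.1, 0)).2 + p.2) := by
  have := ap_shift f (p.1, 0) p.2
  simpa using this
theorem ap_inj (f : TP Ω) {p q : Ω × ℤ} (h : ap f p = ap f q) : p = q := f.1.injective h

/-- constructor -/
def mkTP (F G : Ω × ℤ → Ω × ℤ) (h1 : ∀ p, G (F p) = p) (h2 : ∀ p, F (G p) = p)
    (h3 : ∀ (p : Ω × ℤ) (k : ℤ), F (p.1, p.2 + k) = ((F p).1, (F p).2 + k)) : TP Ω :=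
  ⟨⟨F, G, h1, h2⟩, h3⟩

theorem ap_mkTP (F G : Ω × ℤ → Ω × ℤ) (h1 h2 h3) (p : Ω × ℤ) : ap (mkTP F G h1 h2 h3) p = F p := rfl

/-- a homomorphism `TP Ω → TP Ω'` which induces the same stabilisers, up to scaling -/
def Nice (Θ : TP Ω →* TP Ω') : Prop :=
  ∀ p : Ω' × ℤ, ∃ q : Ω × ℤ, ∃ l : ℤ, l ≠ 0 ∧ ∀ f : TP Ω,
    ((ap (Θ f) p).1 = p.1 ↔ (ap f q).1 = q.1) ∧
    ∀ c : ℤ, ap f q = (q.1, q.2 + c) → ap (Θ f) p = (p.1, p.2 + l * c)

theorem Nice.comp {Ω'' : Type u} {Θ : TP Ω →* TP Ω'} {Θ' : TP Ω' →* TP Ω''} (h : Nice Θ)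
    (h' : Nice Θ') : Nice (Θ'.comp Θ) := by
  intro p
  obtain ⟨q, l, hl, hq⟩ := h' p
  obtain ⟨q', l', hl', hq'⟩ := h q
  refine ⟨q', l * l', mul_ne_zero hl hl', fun f => ⟨?_, ?_⟩⟩
  · exact (hq (Θ f)).1.trans (hq' f).1
  · intro c hc
    have := (hq (Θ f)).2 _ ((hq' f).2 c hc)
    rw [mul_assoc]; exact this

/-- conjugation with a translation equivariant bijection -/
def CB (B : (Ω' × ℤ) ≃ (Ω × ℤ))
    (hB : ∀ (p : Ω' × ℤ) (k : ℤ), B (p.1, p.2 + k) = ((B p).1, (B p).2 + k)) : TP Ω →* TP Ω' where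
  toFun f := mkTP (fun p => B.symm (ap f (B p))) (fun p => B.symm (ap f⁻¹ (B p)))
    (by intro p; simp [ap_inv_ap]) (by intro p; simp [ap_ap_inv])
    (by
      intro p k
      rw [hB, ap_shift, Equiv.symm_apply_eq, hB, Equiv.apply_symm_apply])
  map_one' := by
    apply ap_ext
    intro p
    rw [ap_mkTP, ap_one, ap_one, Equiv.symm_apply_apply]
  map_mul' := by
    intro f g
    apply ap_ext
    intro p
    rw [ap_mul, ap_mkTP, ap_mkTP, ap_mkTP, ap_mul, Equiv.apply_symm_apply]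

theorem CB_apply (B : (Ω' × ℤ) ≃ (Ω × ℤ)) (hB) (f : TP Ω) (p : Ω' × ℤ) :
    ap (CB B hB f) p = B.symm (ap f (B p)) := rfl

theorem CB_nice (B : (Ω' × ℤ) ≃ (Ω × ℤ)) (hB) : Nice (CB B hB) := by
  intro p
  refine ⟨B p, 1, one_ne_zero, fun f => ⟨?_, ?_⟩⟩
  · rw [CB_apply]
    constructor
    · intro h
      have h1 : B.symm (ap f (B p)) = (p.1, p.2 + ((B.symm (ap f (B p))).2 - p.2)) := by
        apply Prod.ext
        · exact h
        · simp
      have h2 := congrArg B h1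
      rw [Equiv.apply_symm_apply, hB] at h2
      rw [h2]
    · intro h
      have h1 : ap f (B p) = ((B p).1, (B p).2 + ((ap f (B p)).2 - (B p).2)) := by
        apply Prod.ext
        · exact h
        · simp
      rw [h1, ← hB, Equiv.symm_apply_apply]
  · intro c hc
    rw [CB_apply, hc, ← hB, Equiv.symm_apply_apply, one_mul]

/-- scaling the cocycle on `Ω × {t}` by `l t` -/
def Sc {T : Type u} (l : T → ℤ) : TP Ω →* TP (Ω × T) where
  toFun f := mkTP
    (fun p => (((ap f (p.1.1, 0)).1, p.1.2), p.2 + l p.1.2 * (ap f (p.1.1, 0)).2))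
    (fun p => (((ap f⁻¹ (p.1.1, 0)).1, p.1.2), p.2 + l p.1.2 * (ap f⁻¹ (p.1.1, 0)).2))
    (by
      rintro ⟨⟨ω, t⟩, n⟩
      have h1 := ap_eq f⁻¹ (ap f (ω, 0))
      rw [ap_inv_ap] at h1
      have h3 := congrArg Prod.fst h1
      have h4 := congrArg Prod.snd h1
      simp only at h3 h4
      simp only [← h3, Prod.mk.injEq, true_and]
      linear_combination (-(l t)) * h4)
    (by
      rintro ⟨⟨ω, t⟩, n⟩
      have h1 := ap_eq f (ap f⁻¹ (ω, 0))
      rw [ap_ap_inv] at h1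
      have h3 := congrArg Prod.fst h1
      have h4 := congrArg Prod.snd h1
      simp only at h3 h4
      simp only [← h3, Prod.mk.injEq, true_and]
      linear_combination (-(l t)) * h4)
    (by
      rintro ⟨⟨ω, t⟩, n⟩ k
      simp only [Prod.mk.injEq, true_and]
      ring)
  map_one' := by
    apply ap_ext
    intro p
    rw [ap_mkTP, ap_one, ap_one]
    simp
  map_mul' := by
    intro f g
    apply ap_ext
    intro p
    rw [ap_mul, ap_mkTP, ap_mkTP, ap_mkTP]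
    have h1 := ap_eq f (ap g (p.1.1, 0))
    rw [ap_mul]
    apply Prod.ext
    · simp only [h1]
    · simp only [h1]; ring

theorem Sc_apply {T : Type u} (l : T → ℤ) (f : TP Ω) (p : (Ω × T) × ℤ) :
    ap (Sc l f) p = (((ap f (p.1.1, 0)).1, p.1.2), p.2 + l p.1.2 * (ap f (p.1.1, 0)).2) := rfl

theorem Sc_nice {T : Type u} (l : T → ℤ) (hl : ∀ t, l t ≠ 0) : Nice (Sc (Ω := Ω) l) := by
  intro p
  refine ⟨(p.1.1, 0), l p.1.2, hl _, fun f => ⟨?_, ?_⟩⟩
  · rw [Sc_apply]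
    constructor
    · intro h; exact congrArg (fun q : Ω × T => q.1) h
    · intro h
      apply Prod.ext
      · exact h
      · rfl
  · intro c hc
    rw [Sc_apply, hc]
    simp

theorem Nice.fix {Θ : TP Ω →* TP Ω'} (h : Nice Θ) (p : Ω' × ℤ) : ∃ q : Ω × ℤ, ∀ f : TP Ω,
    ap (Θ f) p = p ↔ ap f q = q := by
  obtain ⟨q, l, hl, hq⟩ := h p
  refine ⟨q, fun f => ⟨?_, ?_⟩⟩
  · intro hf
    have h1 := (hq f).1.1 (by rw [hf])
    have h2 : ap f q = (q.1, q.2 + ((ap f q).2 - q.2)) := by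
      apply Prod.ext
      · exact h1
      · simp
    have h3 := (hq f).2 _ h2
    rw [hf] at h3
    have h4 := congrArg Prod.snd h3
    simp only at h4
    have h5 : l * ((ap f q).2 - q.2) = 0 := by linarith
    rcases mul_eq_zero.1 h5 with h6 | h6
    · exact absurd h6 hl
    · rw [h2, h6, add_zero]
  · intro hf
    have := (hq f).2 0 (by rw [hf, add_zero])
    rw [this, mul_zero, add_zero]

end TPbasic

/-- A good action of `E` on `Ω × ℤ`: the stabilisers of the points of `Ω` are all equal to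
`⟨z⟩`, and `z` translates the fibres nontrivially. -/
structure Good {E : Type u} [Group E] (z : E) {Ω : Type u} (β : E →* TP Ω) : Prop where
  stab : ∀ (g : E) (p : Ω × ℤ), (ap (β g) p).1 = p.1 ↔ g ∈ Subgroup.zpowers z
  tr : ∀ p : Ω × ℤ, ∃ e : ℤ, e ≠ 0 ∧ ap (β z) p = (p.1, p.2 + e)

section good
variable {E : Type u} [Group E] {z : E} {Ω Ω' : Type u}

theorem Good.comp {β : E →* TP Ω} (h : Good z β) {Θ : TP Ω →* TP Ω'} (hΘ : Nice Θ) :
    Good z (Θ.comp β) where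
  stab := by
    intro g p
    obtain ⟨q, l, hl, hq⟩ := hΘ p
    exact (hq (β g)).1.trans (h.stab g q)
  tr := by
    intro p
    obtain ⟨q, l, hl, hq⟩ := hΘ p
    obtain ⟨e, he, he'⟩ := h.tr q
    exact ⟨l * e, mul_ne_zero hl he, (hq (β z)).2 e he'⟩

theorem TP_zpow {f : TP Ω} {ω : Ω} {e : ℤ} (h : ap f (ω, 0) = (ω, e)) (j n : ℤ) :
    ap (f ^ j) (ω, n) = (ω, n + j * e) := by
  have h1 : ∀ n : ℤ, ap f (ω, n) = (ω, n + e) := by
    intro n
    rw [ap_eq f (ω, n), h]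
    simp [add_comm]
  have h2 : ∀ n : ℤ, ap f⁻¹ (ω, n) = (ω, n - e) := by
    intro n
    rw [ap_inv_eq, h1]
    simp
  induction j using Int.induction_on generalizing n with
  | zero => simp [ap_one]
  | succ j ih =>
    rw [zpow_add_one, ap_mul, h1, ih]
    apply Prod.ext
    · rfl
    · simp only; ring
  | pred j ih =>
    rw [zpow_sub_one, ap_mul, h2, ih]
    apply Prod.ext
    · rfl
    · simp only; ring

/-- finitely many orbits -/
theorem Good.orbits [Finite Ω] {β : E →* TP Ω} (h : Good z β) : ∃ D : Set (Ω × ℤ), D.Finite ∧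
    ∀ p, ∃ d ∈ D, ∃ j : ℤ, p = ap (β (z ^ j)) d := by
  choose e he he' using fun ω : Ω => h.tr (ω, 0)
  refine ⟨⋃ ω : Ω, {ω} ×ˢ Set.Icc (0 : ℤ) |e ω|, ?_, ?_⟩
  · apply Set.finite_iUnion
    intro ω
    exact (Set.finite_singleton ω).prod (Set.finite_Icc _ _)
  · rintro ⟨ω, n⟩
    have h0 : ap (β z) (ω, 0) = (ω, e ω) := by simpa using he' ω
    refine ⟨(ω, n % e ω), ?_, n / e ω, ?_⟩
    · rw [Set.mem_iUnion]
      exact ⟨ω, rfl, Int.emod_nonneg _ (he ω), (Int.emod_lt_abs _ (he ω)).le⟩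
    · rw [map_zpow, TP_zpow h0]
      apply Prod.ext
      · rfl
      · show n = n % e ω + n / e ω * e ω
        have := Int.emod_add_mul_ediv n (e ω)
        linarith

end good

/-! ### trivialisation of a good action -/

section triv
variable {E : Type u} [Group E] {z : E} {Ω : Type u}

/-- the orbit relation on `Ω` -/
def orb (β : E →* TP Ω) : Setoid Ω where
  r ω ω' := ∃ (g : E) (n : ℤ), ap (β g) (ω, 0) = (ω', n)
  iseqv := by
    constructor
    · intro ω; exact ⟨1, 0, by simp [ap_one]⟩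
    · rintro ω ω' ⟨g, n, h⟩
      refine ⟨g⁻¹, -n, ?_⟩
      rw [map_inv, ap_inv_eq]
      have := ap_shift (β g) (ω, 0) (-n)
      rw [h] at this
      simp only [zero_add, add_neg_cancel] at this
      exact this.symm
    · rintro ω ω' ω'' ⟨g, n, h⟩ ⟨g', n', h'⟩
      refine ⟨g' * g, n' + n, ?_⟩
      rw [map_mul, ap_mul, h, ap_eq (β g') (ω', n), h']

variable (β : E →* TP Ω) (hβ : Good z β)

abbrev Orb := Quotient (orb β)

noncomputable def rep (t : Orb β) : Ω := Quotient.out t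

noncomputable def Bfun (p : ((E ⧸ Subgroup.zpowers z) × Orb β) × ℤ) : Ω × ℤ :=
  ap (β (Quotient.out p.1.1)) (rep β p.1.2, p.2)

include hβ in
theorem Bfun_bij : Function.Bijective (Bfun (z := z) β) := by
  constructor
  · rintro ⟨⟨f, t⟩, n⟩ ⟨⟨f', t'⟩, n'⟩ h
    simp only [Bfun] at h
    have h1 : ap (β ((Quotient.out f')⁻¹ * Quotient.out f)) (rep β t, n) = (rep β t', n') := by
      rw [map_mul, map_inv, ap_mul, ap_inv_eq]
      exact h
    have ht : t = t' := by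
      have : (orb β).r (rep β t) (rep β t') := by
        refine ⟨(Quotient.out f')⁻¹ * Quotient.out f, n' - n, ?_⟩
        have h2 := ap_eq (β ((Quotient.out f')⁻¹ * Quotient.out f)) (rep β t, n)
        rw [h1] at h2
        apply Prod.ext
        · exact (congrArg Prod.fst h2).symm
        · have := congrArg Prod.snd h2
          simp only at this
          show _ = n' - n
          linarith
      have h3 := Quotient.sound (s := orb β) this
      rwa [rep, rep, Quotient.out_eq, Quotient.out_eq] at h3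
    subst ht
    have hf : f = f' := by
      have h2 := (hβ.stab _ (rep β t, n)).1 (by rw [h1])
      have h3 : (QuotientGroup.mk (Quotient.out f') : E ⧸ Subgroup.zpowers z) =
          QuotientGroup.mk (Quotient.out f) := QuotientGroup.eq.2 h2
      rw [QuotientGroup.out_eq', QuotientGroup.out_eq'] at h3
      exact h3.symm
    subst hf
    have h4 := ap_inj _ h
    rw [Prod.mk.injEq] at h4
    rw [h4.2]
  · rintro ⟨ω, m⟩
    let t : Orb β := Quotient.mk (orb β) ω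
    have hrep : (orb β).r (rep β t) ω := Quotient.exact (Quotient.out_eq t)
    obtain ⟨g, n, hg⟩ := hrep
    let f : E ⧸ Subgroup.zpowers z := QuotientGroup.mk g
    have hz : (Quotient.out f)⁻¹ * g ∈ Subgroup.zpowers z := by
      rw [← QuotientGroup.eq]
      exact QuotientGroup.out_eq' f
    have h1 := (hβ.stab _ (rep β t, 0)).2 hz
    -- `g = out f * z'`
    obtain ⟨c, hc⟩ : ∃ c : ℤ, ap (β ((Quotient.out f)⁻¹ * g)) (rep β t, 0) = (rep β t, c) :=
      ⟨(ap (β ((Quotient.out f)⁻¹ * g)) (rep β t, 0)).2, by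
        apply Prod.ext
        · exact h1
        · rfl⟩
    have h2 : ap (β (Quotient.out f)) (rep β t, c) = (ω, n) := by
      rw [← hc, ← hg, map_mul, map_inv, ap_mul, ap_ap_inv]
    refine ⟨((f, t), c + (m - n)), ?_⟩
    show ap (β (Quotient.out f)) (rep β t, c + (m - n)) = (ω, m)
    have h3 := ap_shift (β (Quotient.out f)) (rep β t, c) (m - n)
    rw [h2] at h3
    rw [h3]
    apply Prod.ext
    · rfl
    · simp

/-- the trivialisation -/
noncomputable def BB : (((E ⧸ Subgroup.zpowers z) × Orb β) × ℤ) ≃ (Ω × ℤ) :=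
  Equiv.ofBijective _ (Bfun_bij β hβ)

theorem BB_shift (p : ((E ⧸ Subgroup.zpowers z) × Orb β) × ℤ) (k : ℤ) :
    BB β hβ (p.1, p.2 + k) = ((BB β hβ p).1, (BB β hβ p).2 + k) := by
  show Bfun β (p.1, p.2 + k) = ((Bfun β p).1, (Bfun β p).2 + k)
  exact ap_shift (β (Quotient.out p.1.1)) (rep β p.1.2, p.2) k

/-- the translation lengths at the representatives -/
noncomputable def tl (t : Orb β) : ℤ := (hβ.tr (rep β t, 0)).choose

theorem tl_ne (t : Orb β) : tl β hβ t ≠ 0 := (hβ.tr (rep β t, 0)).choose_spec.1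

theorem tl_spec (t : Orb β) : ap (β z) (rep β t, 0) = (rep β t, tl β hβ t) := by
  have := (hβ.tr (rep β t, 0)).choose_spec.2
  rw [this, zero_add]; rfl

theorem kk_ex (z : E) [(Subgroup.zpowers z).Normal] (g : E) (f : E ⧸ Subgroup.zpowers z) :
    ∃ k : ℤ, g * Quotient.out f =
      Quotient.out ((QuotientGroup.mk g : E ⧸ Subgroup.zpowers z) * f) * z ^ k := by
  have h : (Quotient.out ((QuotientGroup.mk g : E ⧸ Subgroup.zpowers z) * f))⁻¹ *
      (g * Quotient.out f) ∈ Subgroup.zpowers z := by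
    rw [← QuotientGroup.eq, QuotientGroup.out_eq', QuotientGroup.mk_mul, QuotientGroup.out_eq']
  obtain ⟨k, hk⟩ := h
  refine ⟨k, ?_⟩
  simp only at hk
  rw [hk, mul_inv_cancel_left]

/-- the universal cocycle -/
noncomputable def kk (z : E) [(Subgroup.zpowers z).Normal] (g : E)
    (f : E ⧸ Subgroup.zpowers z) : ℤ := (kk_ex z g f).choose

theorem kk_spec [(Subgroup.zpowers z).Normal] (g : E) (f : E ⧸ Subgroup.zpowers z) :
    g * Quotient.out f = Quotient.out ((QuotientGroup.mk g : E ⧸ Subgroup.zpowers z) * f) *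
      z ^ (kk z g f) := (kk_ex z g f).choose_spec

theorem CB_beta [(Subgroup.zpowers z).Normal] (g : E) (f : E ⧸ Subgroup.zpowers z) (t : Orb β)
    (n : ℤ) : ap (CB (BB β hβ) (BB_shift β hβ) (β g)) ((f, t), n) =
      (((QuotientGroup.mk g : E ⧸ Subgroup.zpowers z) * f, t), n + kk z g f * tl β hβ t) := by
  rw [CB_apply, Equiv.symm_apply_eq]
  show ap (β g) (ap (β (Quotient.out f)) (rep β t, n)) =
    ap (β (Quotient.out ((QuotientGroup.mk g : E ⧸ Subgroup.zpowers z) * f)))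
      (rep β t, n + kk z g f * tl β hβ t)
  rw [← ap_mul, ← map_mul, kk_spec g f, map_mul, ap_mul, map_zpow, TP_zpow (tl_spec β hβ t)]

end triv

/-- relabelling -/
def relab {Ω Ω' : Type u} (e : Ω' ≃ Ω) : TP Ω →* TP Ω' :=
  CB (e.prodCongr (Equiv.refl ℤ)) (by intro p k; rfl)

theorem relab_nice {Ω Ω' : Type u} (e : Ω' ≃ Ω) : Nice (relab e) := CB_nice _ _

theorem relab_apply {Ω Ω' : Type u} (e : Ω' ≃ Ω) (f : TP Ω) (p : Ω' × ℤ) :
    ap (relab e f) p = (e.symm (ap f (e p.1, p.2)).1, (ap f (e p.1, p.2)).2) := rfl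

/-- **Gluing.** -/
theorem glue {E : Type u} [Group E] {z : E} [hn : (Subgroup.zpowers z).Normal]
    [hfi : (Subgroup.zpowers z).FiniteIndex] {Ω₁ Ω₂ : Type u} [Finite Ω₁] [Finite Ω₂]
    [Nonempty Ω₁] [Nonempty Ω₂]
    (β₁ : E →* TP Ω₁) (β₂ : E →* TP Ω₂) (h₁ : Good z β₁) (h₂ : Good z β₂) :
    ∃ (Ω : Type u) (_ : Finite Ω) (_ : Nonempty Ω) (Θ₁ : TP Ω₁ →* TP Ω) (Θ₂ : TP Ω₂ →* TP Ω),
      Nice Θ₁ ∧ Nice Θ₂ ∧ Θ₁.comp β₁ = Θ₂.comp β₂ := by
  have hF : Finite (E ⧸ Subgroup.zpowers z) := inferInstance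
  let Θ₁ : TP Ω₁ →* TP (((E ⧸ Subgroup.zpowers z) × Orb β₁) × Orb β₂) :=
    (Sc (tl β₂ h₂)).comp (CB (BB β₁ h₁) (BB_shift β₁ h₁))
  let sw : (((E ⧸ Subgroup.zpowers z) × Orb β₁) × Orb β₂) ≃
      (((E ⧸ Subgroup.zpowers z) × Orb β₂) × Orb β₁) :=
    { toFun := fun p => ((p.1.1, p.2), p.1.2)
      invFun := fun p => ((p.1.1, p.2), p.1.2)
      left_inv := fun _ => rfl
      right_inv := fun _ => rfl }
  let Θ₂ : TP Ω₂ →* TP (((E ⧸ Subgroup.zpowers z) × Orb β₁) × Orb β₂) :=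
    (relab sw).comp ((Sc (tl β₁ h₁)).comp (CB (BB β₂ h₂) (BB_shift β₂ h₂)))
  refine ⟨((E ⧸ Subgroup.zpowers z) × Orb β₁) × Orb β₂, inferInstance, ?_, Θ₁, Θ₂, ?_, ?_, ?_⟩
  · exact ⟨⟨⟨1, Quotient.mk _ (Classical.arbitrary _)⟩, Quotient.mk _ (Classical.arbitrary _)⟩⟩
  · exact (CB_nice _ _).comp (Sc_nice _ (tl_ne β₂ h₂))
  · exact ((CB_nice _ _).comp (Sc_nice _ (tl_ne β₁ h₁))).comp (relab_nice _)
  · apply MonoidHom.ext
    intro g
    apply ap_ext
    rintro ⟨⟨⟨f, t⟩, t'⟩, n⟩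
    show ap (Sc (tl β₂ h₂) (CB (BB β₁ h₁) (BB_shift β₁ h₁) (β₁ g))) (((f, t), t'), n) =
      ap (relab sw (Sc (tl β₁ h₁) (CB (BB β₂ h₂) (BB_shift β₂ h₂) (β₂ g)))) (((f, t), t'), n)
    rw [relab_apply, Sc_apply, Sc_apply]
    simp only [sw, Equiv.coe_fn_mk, CB_beta]
    simp only [Equiv.symm, Equiv.coe_fn_mk, zero_add]
    apply Prod.ext
    · rfl
    · simp only; ring

end Pool.Agent.X260.Glue
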