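import Mathlib
set_option autoImplicit false

/-! Openness of the set of fibered characters, in the form needed for virtual fibering. -/

namespace Pool.Agent.X260.Opn

universe u
variable {M : Type u} [Group M]

section W
variable (s : M) (Y : Set M)

/-- the subgroup generated by the conjugates `s^i y s^{-i}`, `a ≤ i ≤ b` -/
def W (a b : ℤ) : Subgroup M :=
  Subgroup.closure {g | ∃ (i : ℤ) (y : M), a ≤ i ∧ i ≤ b ∧ y ∈ Y ∧ g = s ^ i * y * (s ^ i)⁻¹}

variable {s Y}

theorem W_mono {a b a' b' : ℤ} (ha : a' ≤ a) (hb : b ≤ b') : W s Y a b ≤ W s Y a' b' := by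
  apply Subgroup.closure_mono
  rintro g ⟨i, y, h1, h2, h3, h4⟩
  exact ⟨i, y, ha.trans h1, h2.trans hb, h3, h4⟩

theorem W_gen {a b i : ℤ} {y : M} (ha : a ≤ i) (hb : i ≤ b) (hy : y ∈ Y) :
    s ^ i * y * (s ^ i)⁻¹ ∈ W s Y a b := Subgroup.subset_closure ⟨i, y, ha, hb, hy, rfl⟩

theorem conj_closure {K : Subgroup M} {S : Set M} (x : M) (h : ∀ g ∈ S, x * g * x⁻¹ ∈ K) :
    ∀ g ∈ Subgroup.closure S, x * g * x⁻¹ ∈ K := by
  intro g hg
  induction hg using Subgroup.closure_induction with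
  | mem g hg => exact h g hg
  | one => simp
  | mul a b _ _ ha hb =>
    have e : x * (a * b) * x⁻¹ = (x * a * x⁻¹) * (x * b * x⁻¹) := by group
    rw [e]; exact mul_mem ha hb
  | inv a _ ha =>
    have e : x * a⁻¹ * x⁻¹ = (x * a * x⁻¹)⁻¹ := by group
    rw [e]; exact inv_mem ha

theorem W_shift {a b : ℤ} (k : ℤ) {g : M} (hg : g ∈ W s Y a b) :
    s ^ k * g * (s ^ k)⁻¹ ∈ W s Y (a + k) (b + k) := by
  refine conj_closure (s ^ k) ?_ g hg
  rintro g ⟨i, y, h1, h2, h3, rfl⟩
  have e : s ^ k * (s ^ i * y * (s ^ i)⁻¹) * (s ^ k)⁻¹ = s ^ (i + k) * y * (s ^ (i + k))⁻¹ := by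
    rw [zpow_add, (Commute.refl s).zpow_zpow i k]; group
  rw [e]
  exact W_gen (by omega) (by omega) h3

theorem W_fg (hY : Y.Finite) (a b : ℤ) : (W s Y a b).FG := by
  rw [Subgroup.fg_iff]
  refine ⟨_, rfl, ?_⟩
  apply ((Set.finite_Icc a b).prod hY).image (fun p => s ^ p.1 * p.2 * (s ^ p.1)⁻¹) |>.subset
  rintro g ⟨i, y, h1, h2, h3, rfl⟩
  exact ⟨(i, y), ⟨⟨h1, h2⟩, h3⟩, rfl⟩

theorem W_bound {t : M} {R : ℤ} (hr : s⁻¹ * t * s * t⁻¹ ∈ W s Y (-R) R)
    (hy : ∀ y ∈ Y, t * y * t⁻¹ ∈ W s Y (-R) R) {a b : ℤ} (ha : a ≤ 0) (hb : 0 ≤ b) {g : M}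
    (hg : g ∈ W s Y a b) : t * g * t⁻¹ ∈ W s Y (a - R) (b + R) := by
  have pos : ∀ (n : ℕ) (y : M), y ∈ Y →
      t * (s ^ (n : ℤ) * y * (s ^ (n : ℤ))⁻¹) * t⁻¹ ∈ W s Y (-R) (n + R) := by
    intro n
    induction n with
    | zero => intro y h; simpa using hy y h
    | succ n ih =>
      intro y h
      have h1 := ih y h
      have e : t * (s ^ ((n + 1 : ℕ) : ℤ) * y * (s ^ ((n + 1 : ℕ) : ℤ))⁻¹) * t⁻¹ =
          s ^ (1 : ℤ) * ((s⁻¹ * t * s * t⁻¹) * (t * (s ^ (n : ℤ) * y * (s ^ (n : ℤ))⁻¹) * t⁻¹) *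
            (s⁻¹ * t * s * t⁻¹)⁻¹) * (s ^ (1 : ℤ))⁻¹ := by
        push_cast
        rw [zpow_add, (Commute.refl s).zpow_zpow (n : ℤ) 1]; group
      rw [e]
      have h2 : s⁻¹ * t * s * t⁻¹ ∈ W s Y (-R) (n + R) := W_mono le_rfl (by omega) hr
      exact W_mono (by omega) (by push_cast; omega)
        (W_shift 1 (mul_mem (mul_mem h2 h1) (inv_mem h2)))
  have neg : ∀ (n : ℕ) (y : M), y ∈ Y →
      t * (s ^ (-(n : ℤ)) * y * (s ^ (-(n : ℤ)))⁻¹) * t⁻¹ ∈ W s Y (-n - R) R := by
    intro n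
    induction n with
    | zero => intro y h; simpa using hy y h
    | succ n ih =>
      intro y h
      have h1 := ih y h
      have e : t * (s ^ (-((n + 1 : ℕ) : ℤ)) * y * (s ^ (-((n + 1 : ℕ) : ℤ)))⁻¹) * t⁻¹ =
          (s⁻¹ * t * s * t⁻¹)⁻¹ * (s ^ (-1 : ℤ) * (t * (s ^ (-(n : ℤ)) * y *
            (s ^ (-(n : ℤ)))⁻¹) * t⁻¹) * (s ^ (-1 : ℤ))⁻¹) * (s⁻¹ * t * s * t⁻¹) := by
        push_cast
        have e2 : -((n : ℤ) + 1) = -n + -1 := by ring
        rw [e2, zpow_add, (Commute.refl s).zpow_zpow (-(n : ℤ)) (-1)]; group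
      rw [e]
      have h2 : s⁻¹ * t * s * t⁻¹ ∈ W s Y (-((n + 1 : ℕ) : ℤ) - R) R :=
        W_mono (by push_cast; omega) le_rfl hr
      have h3 := W_mono (s := s) (Y := Y) (a := -(n : ℤ) - R + -1) (b := R + -1)
        (a' := -((n + 1 : ℕ) : ℤ) - R) (b' := R) (by push_cast; omega) (by omega) (W_shift (-1) h1)
      exact mul_mem (mul_mem (inv_mem h2) h3) h2
  refine conj_closure t ?_ g hg
  rintro g ⟨i, y, h1, h2, h3, rfl⟩
  rcases le_total 0 i with h | h
  · obtain ⟨n, rfl⟩ := Int.eq_ofNat_of_zero_le h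
    exact W_mono (by omega) (by omega) (pos n y h3)
  · obtain ⟨n, hn⟩ := Int.eq_ofNat_of_zero_le (show 0 ≤ -i by omega)
    have hi : i = -(n : ℤ) := by omega
    subst hi
    exact W_mono (by omega) (by omega) (neg n y h3)

end W

/-- the integer value of a character -/
abbrev vl (ψ : M →* Multiplicative ℤ) (g : M) : ℤ := Multiplicative.toAdd (ψ g)

theorem vl_mul (ψ : M →* Multiplicative ℤ) (g h : M) : vl ψ (g * h) = vl ψ g + vl ψ h := by
  simp [vl]
theorem vl_inv (ψ : M →* Multiplicative ℤ) (g : M) : vl ψ g⁻¹ = -vl ψ g := by simp [vl]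
theorem vl_one (ψ : M →* Multiplicative ℤ) : vl ψ 1 = 0 := by simp [vl]
theorem vl_zpow (ψ : M →* Multiplicative ℤ) (g : M) (n : ℤ) : vl ψ (g ^ n) = n * vl ψ g := by
  simp [vl]
theorem mem_ker (ψ : M →* Multiplicative ℤ) (g : M) : g ∈ ψ.ker ↔ vl ψ g = 0 := by
  rw [MonoidHom.mem_ker]; rfl

theorem vl_comb (φ ψ : M →* Multiplicative ℤ) (a : ℤ) (g : M) :
    vl (φ ^ a * ψ) g = a * vl φ g + vl ψ g := by
  simp [vl, MonoidHom.zpow_apply]

theorem open_lemma (φ ψ : M →* Multiplicative ℤ) (t : M) (ht : vl φ t = 1) (hfg : φ.ker.FG)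
    (B : ℤ) : ∃ a : ℤ, B ≤ a ∧ (φ ^ a * ψ).ker.FG := by
  classical
  by_cases hP : ∀ p, vl φ p = 0 → vl ψ p = 0
  · -- `ψ` vanishes on the kernel
    refine ⟨max B (1 - vl ψ t), le_max_left _ _, ?_⟩
    set a := max B (1 - vl ψ t) with ha
    have ha' : 1 - vl ψ t ≤ a := le_max_right _ _
    have : (φ ^ a * ψ).ker = φ.ker := by
      ext g
      rw [mem_ker, mem_ker, vl_comb]
      have h1 : vl ψ (g * t ^ (-(vl φ g))) = 0 := by
        apply hP
        rw [vl_mul, vl_zpow, ht]; ring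
      rw [vl_mul, vl_zpow] at h1
      constructor
      · intro h
        have h2 : vl φ g * (a + vl ψ t) = 0 := by linear_combination h - h1
        rcases mul_eq_zero.1 h2 with h3 | h3
        · exact h3
        · omega
      · intro h
        rw [h] at h1 ⊢
        linear_combination h1
    rw [this]; exact hfg
  · -- the interesting case
    obtain ⟨z, hz⟩ : ∃ z : Multiplicative ℤ, Subgroup.zpowers z = φ.ker.map ψ :=
      (Subgroup.isCyclic_iff_exists_zpowers_eq_top _).1 inferInstance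
    have hz0 : Multiplicative.toAdd z ≠ 0 := by
      intro h
      apply hP
      intro p hp
      have h1 : ψ p ∈ φ.ker.map ψ := ⟨p, (mem_ker φ p).2 hp, rfl⟩
      rw [← hz] at h1
      obtain ⟨k, hk⟩ := h1
      have h2 : vl ψ p = k * Multiplicative.toAdd z := by
        simp only at hk
        rw [vl, ← hk]; simp
      rw [h2, h, mul_zero]
    obtain ⟨c, s, hc, hs1, hs2, hdiv⟩ : ∃ (c : ℤ) (s : M), 0 < c ∧ vl φ s = 0 ∧ vl ψ s = c ∧
        ∀ p, vl φ p = 0 → c ∣ vl ψ p := by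
      have h1 : z ∈ φ.ker.map ψ := by rw [← hz]; exact Subgroup.mem_zpowers z
      obtain ⟨s, hs, hsz⟩ := h1
      have hd : ∀ p, vl φ p = 0 → Multiplicative.toAdd z ∣ vl ψ p := by
        intro p hp
        have h1 : ψ p ∈ φ.ker.map ψ := ⟨p, (mem_ker φ p).2 hp, rfl⟩
        rw [← hz] at h1
        obtain ⟨k, hk⟩ := h1
        refine ⟨k, ?_⟩
        simp only at hk
        rw [vl, ← hk]; simp [mul_comm]
      have hsφ : vl φ s = 0 := (mem_ker φ s).1 hs
      have hsψ : vl ψ s = Multiplicative.toAdd z := by rw [vl, hsz]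
      rcases lt_or_gt_of_ne hz0 with h | h
      · refine ⟨-Multiplicative.toAdd z, s⁻¹, by omega, by rw [vl_inv, hsφ, neg_zero],
          by rw [vl_inv, hsψ], fun p hp => (neg_dvd).2 (hd p hp)⟩
      · exact ⟨_, s, h, hsφ, hsψ, hd⟩
    obtain ⟨X, hX, hXfin⟩ := (Subgroup.fg_iff _).1 hfg
    set Y : Set M := (fun x => x * s ^ (-(vl ψ x / c))) '' X with hYdef
    have hYfin : Y.Finite := hXfin.image _
    have hXφ : ∀ x ∈ X, vl φ x = 0 := by
      intro x hx
      rw [← mem_ker, ← hX]; exact Subgroup.subset_closure hx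
    have hYφ : ∀ y ∈ Y, vl φ y = 0 := by
      rintro _ ⟨x, hx, rfl⟩
      simp only
      rw [vl_mul, vl_zpow, hs1, hXφ x hx]; ring
    have hYψ : ∀ y ∈ Y, vl ψ y = 0 := by
      rintro _ ⟨x, hx, rfl⟩
      simp only
      rw [vl_mul, vl_zpow, hs2]
      have := Int.ediv_mul_cancel (hdiv x (hXφ x hx))
      linear_combination -this
    -- the union of the `W`
    let U : Subgroup M :=
      { carrier := {g | ∃ n : ℕ, g ∈ W s Y (-n) n}
        one_mem' := ⟨0, one_mem _⟩
        mul_mem' := by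
          rintro a b ⟨n, hn⟩ ⟨m, hm⟩
          exact ⟨n + m, mul_mem (W_mono (by push_cast; omega) (by push_cast; omega) hn)
            (W_mono (by push_cast; omega) (by push_cast; omega) hm)⟩
        inv_mem' := by
          rintro a ⟨n, hn⟩
          exact ⟨n, inv_mem hn⟩ }
    have hUY : ∀ y ∈ Y, y ∈ U := by
      intro y hy
      refine ⟨0, ?_⟩
      have := W_gen (s := s) (Y := Y) (a := -((0 : ℕ) : ℤ)) (b := ((0 : ℕ) : ℤ)) (i := 0)
        (by simp) (by simp) hy
      simpa using this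
    have hUs : ∀ (k : ℤ) (g : M), g ∈ U → s ^ k * g * (s ^ k)⁻¹ ∈ U := by
      rintro k g ⟨n, hn⟩
      refine ⟨n + k.natAbs, W_mono ?_ ?_ (W_shift k hn)⟩ <;> omega
    have hUall : ∀ g, vl φ g = 0 → vl ψ g = 0 → g ∈ U := by
      -- every element of the kernel is in `U ⟨s⟩`
      have h1 : ∀ g ∈ Subgroup.closure X, ∃ u ∈ U, ∃ k : ℤ, g = u * s ^ k := by
        intro g hg
        induction hg using Subgroup.closure_induction with
        | mem x hx =>
          refine ⟨x * s ^ (-(vl ψ x / c)), hUY _ ⟨x, hx, rfl⟩, vl ψ x / c, ?_⟩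
          rw [mul_assoc, ← zpow_add, neg_add_cancel, zpow_zero, mul_one]
        | one => exact ⟨1, one_mem _, 0, by simp⟩
        | mul a b _ _ ha hb =>
          obtain ⟨u, hu, k, rfl⟩ := ha
          obtain ⟨v, hv, l, rfl⟩ := hb
          refine ⟨u * (s ^ k * v * (s ^ k)⁻¹), mul_mem hu (hUs k v hv), k + l, ?_⟩
          rw [zpow_add]; group
        | inv a _ ha =>
          obtain ⟨u, hu, k, rfl⟩ := ha
          refine ⟨s ^ (-k) * u⁻¹ * (s ^ (-k))⁻¹, hUs _ _ (inv_mem hu), -k, ?_⟩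
          group
      intro g hg hg'
      have h2 : g ∈ Subgroup.closure X := by rw [hX, mem_ker]; exact hg
      obtain ⟨u, hu, k, rfl⟩ := h1 g h2
      have hu0 : vl ψ u = 0 := by
        obtain ⟨n, hn⟩ := hu
        have : W s Y (-n) n ≤ ψ.ker := by
          rw [W, Subgroup.closure_le]
          rintro g ⟨i, y, _, _, hy, rfl⟩
          rw [SetLike.mem_coe, mem_ker, vl_mul, vl_mul, vl_inv, hYψ y hy]; ring
        exact (mem_ker ψ u).1 (this hn)
      rw [vl_mul, vl_zpow, hu0, hs2, zero_add] at hg'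
      have hk : k = 0 := by
        rcases mul_eq_zero.1 hg' with h | h
        · exact h
        · omega
      rw [hk, zpow_zero, mul_one]; exact hu
    -- the constant `R`
    obtain ⟨R, hR, hRr, hRr', hRy, hRy'⟩ : ∃ R : ℤ, 0 ≤ R ∧ s⁻¹ * t * s * t⁻¹ ∈ W s Y (-R) R ∧
        s⁻¹ * t⁻¹ * s * (t⁻¹)⁻¹ ∈ W s Y (-R) R ∧ (∀ y ∈ Y, t * y * t⁻¹ ∈ W s Y (-R) R) ∧
        (∀ y ∈ Y, t⁻¹ * y * (t⁻¹)⁻¹ ∈ W s Y (-R) R) := by
      have key : ∀ S : Set M, S.Finite → (∀ g ∈ S, g ∈ U) → ∃ R : ℕ, ∀ g ∈ S, g ∈ W s Y (-R) R := by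
        intro S hS
        induction S, hS using Set.Finite.induction_on with
        | empty => intro _; exact ⟨0, by simp⟩
        | @insert a S _ _ ih =>
          intro h
          obtain ⟨R, hR⟩ := ih (fun g hg => h g (Set.mem_insert_of_mem _ hg))
          obtain ⟨n, hn⟩ := h a (Set.mem_insert _ _)
          refine ⟨R + n, ?_⟩
          rintro g (rfl | hg)
          · exact W_mono (by push_cast; omega) (by push_cast; omega) hn
          · exact W_mono (by push_cast; omega) (by push_cast; omega) (hR g hg)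
      obtain ⟨R, hR⟩ := key ({s⁻¹ * t * s * t⁻¹, s⁻¹ * t⁻¹ * s * (t⁻¹)⁻¹} ∪
          ((fun y => t * y * t⁻¹) '' Y ∪ (fun y => t⁻¹ * y * (t⁻¹)⁻¹) '' Y)) (by
            exact (Set.toFinite _).union ((hYfin.image _).union (hYfin.image _))) (by
          rintro g ((rfl | rfl) | (⟨y, hy, rfl⟩ | ⟨y, hy, rfl⟩))
          · apply hUall <;> simp only [vl_mul, vl_inv] <;> ring
          · apply hUall <;> simp only [vl_mul, vl_inv] <;> ring
          · apply hUall
            · simp only [vl_mul, vl_inv, hYφ y hy]; ring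
            · simp only [vl_mul, vl_inv, hYψ y hy]; ring
          · apply hUall
            · simp only [vl_mul, vl_inv, hYφ y hy]; ring
            · simp only [vl_mul, vl_inv, hYψ y hy]; ring)
      refine ⟨R, by positivity, hR _ (Or.inl (Or.inl rfl)), hR _ (Or.inl (Or.inr rfl)),
        fun y hy => hR _ (Or.inr (Or.inl ⟨y, hy, rfl⟩)),
        fun y hy => hR _ (Or.inr (Or.inr ⟨y, hy, rfl⟩))⟩
    -- choose `a = c e - ψ t` with `e` large
    obtain ⟨e, he1, he2⟩ : ∃ e : ℤ, R < e ∧ B ≤ c * e - vl ψ t := by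
      refine ⟨max (R + 1) (B + vl ψ t), by omega, ?_⟩
      have h1 : B + vl ψ t ≤ max (R + 1) (B + vl ψ t) := le_max_right _ _
      have h2 : 0 ≤ max (R + 1) (B + vl ψ t) := by omega
      nlinarith
    refine ⟨c * e - vl ψ t, he2, ?_⟩
    set θ := φ ^ (c * e - vl ψ t) * ψ with hθ
    have hθv : ∀ g, vl θ g = (c * e - vl ψ t) * vl φ g + vl ψ g := vl_comb φ ψ _
    set uu := s ^ e * t⁻¹ with huu
    set L := e + R with hL
    set E := Subgroup.closure ((W s Y (-L) L : Set M) ∪ {uu}) with hE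
    have hWE : W s Y (-L) L ≤ E := fun g hg => Subgroup.subset_closure (Or.inl hg)
    have huE : uu ∈ E := Subgroup.subset_closure (Or.inr rfl)
    have hpos : ∀ n : ℕ, W s Y (-L) n ≤ E := by
      intro n
      induction n using Nat.strong_induction_on with
      | _ n ih =>
        rw [W, Subgroup.closure_le]
        rintro g ⟨i, y, h1, h2, h3, rfl⟩
        rcases le_or_gt i L with h | h
        · exact hWE (W_gen h1 h h3)
        · have e1 : s ^ i * y * (s ^ i)⁻¹ =
              uu * (t * (s ^ (i - e) * y * (s ^ (i - e))⁻¹) * t⁻¹) * uu⁻¹ := by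
            rw [huu, zpow_sub]; group
          rw [SetLike.mem_coe, e1]
          have h4 : s ^ (i - e) * y * (s ^ (i - e))⁻¹ ∈ W s Y 0 (i - e) := W_gen (by omega) le_rfl h3
          have h5 := W_bound hRr hRy le_rfl (by omega) h4
          have h6 : W s Y (0 - R) (i - e + R) ≤ E := by
            have hnn : (n : ℤ) - 1 = ((n - 1 : ℕ) : ℤ) := by
              have : 1 ≤ n := by omega
              push_cast [Nat.cast_sub this]; ring
            refine (W_mono (by omega) (by omega)).trans (ih (n - 1) (by omega))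
          exact mul_mem (mul_mem huE (h6 h5)) (inv_mem huE)
    have hneg : ∀ n : ℕ, ∀ m : ℕ, W s Y (-n) m ≤ E := by
      intro n
      induction n using Nat.strong_induction_on with
      | _ n ih =>
        intro m
        rw [W, Subgroup.closure_le]
        rintro g ⟨i, y, h1, h2, h3, rfl⟩
        rcases le_or_gt (-L) i with h | h
        · exact hpos m (W_gen h h2 h3)
        · have e1 : s ^ i * y * (s ^ i)⁻¹ =
              uu⁻¹ * (s ^ e * (t⁻¹ * (s ^ i * y * (s ^ i)⁻¹) * (t⁻¹)⁻¹) * (s ^ e)⁻¹) * uu := by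
            rw [huu]; group
          rw [SetLike.mem_coe, e1]
          have h4 : s ^ i * y * (s ^ i)⁻¹ ∈ W s Y i 0 := W_gen le_rfl (by omega) h3
          have h5 := W_shift e (W_bound hRr' hRy' (by omega) le_rfl h4)
          have h6 : W s Y (i - R + e) (0 + R + e) ≤ E := by
            obtain ⟨k, hk⟩ := Int.eq_ofNat_of_zero_le (show 0 ≤ -(i - R + e) by omega)
            obtain ⟨l, hl⟩ := Int.eq_ofNat_of_zero_le (show 0 ≤ 0 + R + e by omega)
            have hk' : i - R + e = -(k : ℤ) := by omega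
            rw [hk', hl]
            exact ih k (by omega) l
          exact mul_mem (mul_mem (inv_mem huE) (h6 h5)) huE
    have hker : θ.ker = E := by
      apply le_antisymm
      · intro g hg
        rw [mem_ker, hθv] at hg
        have h1 : vl φ (g * uu ^ (vl φ g)) = 0 := by
          rw [vl_mul, vl_zpow, huu, vl_mul, vl_zpow, vl_inv, hs1, ht]; ring
        have h2 : vl ψ (g * uu ^ (vl φ g)) = 0 := by
          rw [vl_mul, vl_zpow, huu, vl_mul, vl_zpow, vl_inv, hs2]
          linear_combination hg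
        obtain ⟨n, hn⟩ := hUall _ h1 h2
        have h3 : g * uu ^ (vl φ g) ∈ E := hneg n n hn
        have h4 : g = (g * uu ^ (vl φ g)) * (uu ^ (vl φ g))⁻¹ := by group
        rw [h4]
        exact mul_mem h3 (inv_mem (zpow_mem huE _))
      · rw [hE, Subgroup.closure_le]
        rintro g (hg | rfl)
        · rw [SetLike.mem_coe, mem_ker, hθv]
          have hφ : W s Y (-L) L ≤ φ.ker := by
            rw [W, Subgroup.closure_le]
            rintro g ⟨i, y, _, _, hy, rfl⟩
            rw [SetLike.mem_coe, mem_ker, vl_mul, vl_mul, vl_inv, hYφ y hy]; ring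
          have hψ : W s Y (-L) L ≤ ψ.ker := by
            rw [W, Subgroup.closure_le]
            rintro g ⟨i, y, _, _, hy, rfl⟩
            rw [SetLike.mem_coe, mem_ker, vl_mul, vl_mul, vl_inv, hYψ y hy]; ring
          rw [(mem_ker φ g).1 (hφ hg), (mem_ker ψ g).1 (hψ hg)]; ring
        · rw [SetLike.mem_coe, mem_ker, hθv, huu, vl_mul, vl_mul, vl_zpow, vl_zpow, vl_inv, vl_inv,
            hs1, hs2, ht]
          ring
    rw [hker]
    obtain ⟨Z, hZ, hZfin⟩ := (Subgroup.fg_iff _).1 (W_fg (s := s) hYfin (-L) L)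
    rw [Subgroup.fg_iff]
    refine ⟨Z ∪ {uu}, ?_, hZfin.union (Set.finite_singleton _)⟩
    rw [hE, Subgroup.closure_union, Subgroup.closure_union, hZ, Subgroup.closure_eq]

end Pool.Agent.X260.Opn
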