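import Mathlib
import Pool.Agent.X260.Opn
import Pool.Agent.X260.Glue
set_option autoImplicit false

/-! Finite generation of point stabilisers for groups generated by two subgroups with a common
subgroup having finitely many orbits. -/

namespace Pool.Agent.X260.Stab
open Pool.Agent.X260.Glue Pool.Agent.X260.Opn

universe u v

variable {P : Type v} [Group P] {Ω : Type u}

/-- the stabiliser of a point of `Ω × ℤ` -/
def St (F : P →* TP Ω) (y : Ω × ℤ) : Subgroup P where
  carrier := {g | ap (F g) y = y}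
  one_mem' := by simp [ap_one]
  mul_mem' := by
    intro a b (ha : ap (F a) y = y) (hb : ap (F b) y = y)
    show ap (F (a * b)) y = y
    rw [map_mul, ap_mul, hb, ha]
  inv_mem' := by
    intro a (ha : ap (F a) y = y)
    show ap (F a⁻¹) y = y
    rw [map_inv, ap_inv_eq, ha]

theorem mem_St {F : P →* TP Ω} {y : Ω × ℤ} {g : P} : g ∈ St F y ↔ ap (F g) y = y := Iff.rfl

theorem stab_fg (F : P →* TP Ω) (A B C : Subgroup P) (hCA : C ≤ A) (hCB : C ≤ B)
    (D : Set (Ω × ℤ)) (hD : D.Finite) (horb : ∀ p, ∃ d ∈ D, ∃ c ∈ C, p = ap (F c) d)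
    (hA : ∀ y, (St F y ⊓ A).FG) (hB : ∀ y, (St F y ⊓ B).FG) (y0 : Ω × ℤ) :
    (St F y0 ⊓ (A ⊔ B)).FG := by
  classical
  set U := A ⊔ B with hU
  let XX : Bool → Subgroup P := fun b => cond b A B
  have hXU : ∀ b, XX b ≤ U := by
    rintro (_ | _)
    · exact le_sup_right
    · exact le_sup_left
  have hCX : ∀ b, C ≤ XX b := by
    rintro (_ | _)
    · exact hCB
    · exact hCA
  have hX : ∀ b y, (St F y ⊓ XX b).FG := by
    rintro (_ | _) y
    · exact hB y
    · exact hA y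
  -- the relevant representatives
  let D' : Set (Ω × ℤ) := {y0} ∪ {d ∈ D | ∃ g ∈ U, ap (F g) d = y0}
  have hD' : D'.Finite := (Set.finite_singleton _).union (hD.subset (Set.sep_subset _ _))
  have hy0 : y0 ∈ D' := Or.inl rfl
  have hex : ∀ d : Ω × ℤ, ∃ g : P, (d ∈ D' → g ∈ U ∧ ap (F g) d = y0) ∧ (d = y0 → g = 1) := by
    intro d
    by_cases h0 : d = y0
    · exact ⟨1, fun _ => ⟨one_mem _, by rw [h0, map_one, ap_one]⟩, fun _ => rfl⟩
    · by_cases h1 : d ∈ D'
      · rcases h1 with h1 | ⟨_, g, hg, hg'⟩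
        · exact absurd h1 h0
        · exact ⟨g, fun _ => ⟨hg, hg'⟩, fun h => absurd h h0⟩
      · exact ⟨1, fun h => absurd h h1, fun _ => rfl⟩
  choose γ hγ hγ0 using hex
  choose S hS hSf using fun (q : (Ω × ℤ) × Bool) => (Subgroup.fg_iff _).1 (hX q.2 q.1)
  let T : ((Ω × ℤ) × (Ω × ℤ)) × Bool → Set P := fun q =>
    if h : ∃ a ∈ XX q.2, ap (F a) q.1.1 = q.1.2 then {γ q.1.2 * h.choose * (γ q.1.1)⁻¹} else ∅
  have hTf : ∀ q, (T q).Finite := by
    intro q
    simp only [T]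
    split_ifs
    · exact Set.finite_singleton _
    · exact Set.finite_empty
  let gens : Set P := (⋃ q ∈ D' ×ˢ (Set.univ : Set Bool),
      (fun s => γ q.1 * s * (γ q.1)⁻¹) '' S q) ∪ ⋃ q ∈ (D' ×ˢ D') ×ˢ (Set.univ : Set Bool), T q
  have hgens : gens.Finite := by
    apply Set.Finite.union
    · exact (hD'.prod Set.finite_univ).biUnion (fun q _ => (hSf q).image _)
    · exact ((hD'.prod hD').prod Set.finite_univ).biUnion (fun q _ => hTf q)
  -- the conjugates of the stabilisers are in the closure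
  have h1 : ∀ d ∈ D', ∀ b, ∀ s ∈ XX b, ap (F s) d = d →
      γ d * s * (γ d)⁻¹ ∈ Subgroup.closure gens := by
    intro d hd b s hs hsd
    have hs' : s ∈ Subgroup.closure (S (d, b)) := by
      rw [hS]; exact ⟨hsd, hs⟩
    refine conj_closure (γ d) ?_ s hs'
    intro g hg
    apply Subgroup.subset_closure
    left
    rw [Set.mem_iUnion₂]
    exact ⟨(d, b), ⟨hd, Set.mem_univ _⟩, g, hg, rfl⟩
  have h2 : ∀ d ∈ D', ∀ d' ∈ D', ∀ b, ∀ s ∈ XX b, ap (F s) d = d' →
      γ d' * s * (γ d)⁻¹ ∈ Subgroup.closure gens := by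
    intro d hd d' hd' b s hs hsd
    have hex : ∃ a ∈ XX b, ap (F a) d = d' := ⟨s, hs, hsd⟩
    obtain ⟨a, ha, had, hag⟩ : ∃ a ∈ XX b, ap (F a) d = d' ∧
        γ d' * a * (γ d)⁻¹ ∈ Subgroup.closure gens := by
      refine ⟨hex.choose, hex.choose_spec.1, hex.choose_spec.2, ?_⟩
      apply Subgroup.subset_closure
      right
      rw [Set.mem_iUnion₂]
      refine ⟨((d, d'), b), ⟨⟨hd, hd'⟩, Set.mem_univ _⟩, ?_⟩
      simp only [T]
      rw [dif_pos hex]
      rfl
    have e : γ d' * s * (γ d)⁻¹ = (γ d' * a * (γ d)⁻¹) * (γ d * (a⁻¹ * s) * (γ d)⁻¹) := by group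
    rw [e]
    refine mul_mem hag (h1 d hd b _ (mul_mem (inv_mem ha) hs) ?_)
    rw [map_mul, map_inv, ap_mul, ap_inv_eq, hsd, had]
  -- the main claim
  have h3 : ∀ u ∈ U, ∀ d ∈ D', ∀ c ∈ C, ap (F u) y0 = ap (F c) d →
      γ d * c⁻¹ * u ∈ Subgroup.closure gens := by
    intro u hu
    rw [hU, Subgroup.sup_eq_closure] at hu
    have step : ∀ (s : P) (b : Bool), s ∈ XX b → ∀ u ∈ U, (∀ d ∈ D', ∀ c ∈ C,
        ap (F u) y0 = ap (F c) d → γ d * c⁻¹ * u ∈ Subgroup.closure gens) →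
        ∀ d ∈ D', ∀ c ∈ C, ap (F (s * u)) y0 = ap (F c) d →
        γ d * c⁻¹ * (s * u) ∈ Subgroup.closure gens := by
      intro s b hs u hu ih d' hd' c' hc' h
      obtain ⟨d, hd, c, hc, hdc⟩ := horb (ap (F u) y0)
      have hdD' : d ∈ D' := by
        right
        refine ⟨hd, u⁻¹ * c, mul_mem (inv_mem hu) (hXU true (hCX true hc)), ?_⟩
        rw [map_mul, map_inv, ap_mul, ap_inv_eq, hdc]
      have h4 := ih d hdD' c hc hdc
      have e : γ d' * c'⁻¹ * (s * u) = (γ d' * (c'⁻¹ * s * c) * (γ d)⁻¹) * (γ d * c⁻¹ * u) := by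
        group
      rw [e]
      refine mul_mem (h2 d hdD' d' hd' b _ ?_ ?_) h4
      · exact mul_mem (mul_mem (inv_mem (hCX b hc')) hs) (hCX b hc)
      · rw [map_mul, map_mul, map_inv, ap_mul, ap_mul, ← hdc, ap_inv_eq, ← ap_mul, ← map_mul, h]
    have hind : u ∈ U ∧ ∀ d ∈ D', ∀ c ∈ C, ap (F u) y0 = ap (F c) d →
        γ d * c⁻¹ * u ∈ Subgroup.closure gens := by
      induction hu using Subgroup.closure_induction_left with
      | one =>
        refine ⟨one_mem _, fun d hd c hc h => ?_⟩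
        rw [map_one, ap_one] at h
        have h5 := h2 y0 hy0 d hd true c⁻¹ (hCX true (C.inv_mem hc)) (by
          rw [map_inv, ap_inv_eq]; exact h)
        rw [hγ0 y0 rfl, inv_one] at h5
        exact h5
      | mul_left x hx y hy ih =>
        have hx' : ∃ b, x ∈ XX b := by
          rcases hx with h | h
          · exact ⟨true, h⟩
          · exact ⟨false, h⟩
        obtain ⟨b, hb⟩ := hx'
        exact ⟨mul_mem (hXU b hb) ih.1, step x b hb y ih.1 ih.2⟩
      | inv_mul_cancel x hx y hy ih =>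
        have hx' : ∃ b, x ∈ XX b := by
          rcases hx with h | h
          · exact ⟨true, h⟩
          · exact ⟨false, h⟩
        obtain ⟨b, hb⟩ := hx'
        exact ⟨mul_mem (hXU b ((XX b).inv_mem hb)) ih.1, step x⁻¹ b ((XX b).inv_mem hb) y ih.1 ih.2⟩
    exact hind.2
  rw [Subgroup.fg_iff]
  refine ⟨gens, ?_, hgens⟩
  apply le_antisymm
  · rw [Subgroup.closure_le]
    have hconj : ∀ d ∈ D', ∀ d' ∈ D', ∀ s ∈ U, ap (F s) d = d' →
        γ d' * s * (γ d)⁻¹ ∈ St F y0 ⊓ U := by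
      intro d hd d' hd' s hs h
      refine ⟨?_, U.mul_mem (U.mul_mem (hγ d' hd').1 hs) (U.inv_mem (hγ d hd).1)⟩
      show ap (F (γ d' * s * (γ d)⁻¹)) y0 = y0
      rw [map_mul, map_mul, map_inv, ap_mul, ap_mul]
      have : ap (F (γ d))⁻¹ y0 = d := by rw [ap_inv_eq, (hγ d hd).2]
      rw [this, h, (hγ d' hd').2]
    rintro g (hg | hg)
    · rw [Set.mem_iUnion₂] at hg
      obtain ⟨⟨d, b⟩, ⟨hd, _⟩, s, hs, rfl⟩ := hg
      have hs' : s ∈ St F d ⊓ XX b := by
        have h := hS (d, b)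
        simp only at h
        rw [← h]; exact Subgroup.subset_closure hs
      exact hconj d hd d hd s (hXU b hs'.2) hs'.1
    · rw [Set.mem_iUnion₂] at hg
      obtain ⟨⟨⟨d, d'⟩, b⟩, ⟨⟨hd, hd'⟩, _⟩, hg⟩ := hg
      simp only [T] at hg
      split_ifs at hg with h
      · rw [Set.mem_singleton_iff] at hg
        rw [hg]
        exact hconj d hd d' hd' _ (hXU b h.choose_spec.1) h.choose_spec.2
      · exact absurd hg (Set.notMem_empty _)
  · rintro u ⟨hu1, hu2⟩
    have := h3 u hu2 y0 hy0 1 (one_mem _) (by rw [map_one, ap_one]; exact hu1)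
    rwa [hγ0 y0 rfl, inv_one, one_mul, one_mul] at this

end Pool.Agent.X260.Stab
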