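import Mathlib
set_option autoImplicit false

/-! Definitions: fibered groups, virtually fibered groups, virtual retracts, infinite virtually
cyclic groups. -/

namespace Pool.Agent.X260.VF

universe u

/-- `H` is fibered: there is a nontrivial homomorphism `H → ℤ` with finitely generated kernel. -/
def Fibered (H : Type u) [Group H] : Prop :=
  ∃ φ : H →* Multiplicative ℤ, φ ≠ 1 ∧ φ.ker.FG

/-- `H` is virtually fibered: it has a fibered subgroup of finite index. -/
def VFibered (H : Type u) [Group H] : Prop :=
  ∃ K : Subgroup H, K.FiniteIndex ∧ Fibered K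

/-- the subgroup `H` of `G` is a virtual retract: there are a finite index subgroup `K ≥ H` and a
homomorphism `ρ : K → H` which is the identity on `H`. -/
def VRetract {G : Type u} [Group G] (H : Subgroup G) : Prop :=
  ∃ K : Subgroup G, K.FiniteIndex ∧ ∃ hHK : H ≤ K, ∃ ρ : K →* H, ∀ h : H,
    ρ (Subgroup.inclusion hHK h) = h

/-- infinite virtually cyclic -/
def InfVCyclic (H : Type u) [Group H] : Prop :=
  Infinite H ∧ ∃ C : Subgroup H, C.FiniteIndex ∧ IsCyclic C

end Pool.Agent.X260.VF
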