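import Mathlib
import Pool.Agent.X260.VFDefs
import Pool.Agent.X260.Opn
set_option autoImplicit false

/-! Preparation of the vertex groups. -/

namespace Pool.Agent.X260.Vert
open Pool.Agent.X260.VF Pool.Agent.X260.Opn

universe u v

theorem exists_good_gen {E : Type u} [Group E] (hE : InfVCyclic E) :
    ∃ h : E, (Subgroup.zpowers h).Normal ∧ (Subgroup.zpowers h).FiniteIndex ∧
      ¬ IsOfFinOrder h := by
  obtain ⟨hinf, C, hC, hcyc⟩ := hE
  have hN : C.normalCore.FiniteIndex := Subgroup.finiteIndex_normalCore C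
  have hNc : IsCyclic C.normalCore := by
    have hinj : Function.Injective (Subgroup.inclusion (Subgroup.normalCore_le C)) :=
      Subgroup.inclusion_injective _
    exact isCyclic_of_injective _ hinj
  obtain ⟨h, hh⟩ := (Subgroup.isCyclic_iff_exists_zpowers_eq_top _).1 hNc
  refine ⟨h, ?_, ?_, ?_⟩
  · rw [hh]; infer_instance
  · rw [hh]; exact hN
  · intro hfin
    have h1 : (Subgroup.zpowers h : Set E).Finite := by
      rw [← Set.finite_coe_iff] 
      exact hfin.finite_zpowers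
    have h2 : Finite C.normalCore := by
      rw [← hh]; exact h1.to_subtype
    have h3 : Finite E := by
      have : Finite (E ⧸ C.normalCore) := inferInstance
      exact Finite.of_equiv _ (Subgroup.groupEquivQuotientProdSubgroup (s := C.normalCore)).symm
    exact not_finite E

/-- what we use of a virtual retraction onto the image of an infinite virtually cyclic group -/
structure EdgeData {E G : Type u} [Group E] [Group G] (i : E →* G) (h : E) : Type u where
  K : Subgroup G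
  fin : K.FiniteIndex
  R : G → ℤ
  add : ∀ a ∈ K, ∀ b ∈ K, R (a * b) = R a + R b
  one : R (i h) = 1
  mem : ∀ x : E, i x ∈ K ↔ x ∈ Subgroup.zpowers h

theorem exists_edgeData {E G : Type u} [Group E] [Group G] (i : E →* G)
    (hi : Function.Injective i) (hr : VRetract i.range) (h : E) 
    (hfi : (Subgroup.zpowers h).FiniteIndex) (ho : ¬ IsOfFinOrder h) :
    Nonempty (EdgeData i h) := by
  classical
  obtain ⟨K, hK, hHK, ρ, hρ⟩ := hr
  let j : E ≃* i.range := MonoidHom.ofInjective hi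
  let σ : K →* E := j.symm.toMonoidHom.comp ρ
  have hσ : ∀ (x : E) (hx : i x ∈ K), σ ⟨i x, hx⟩ = x := by
    intro x hx
    show j.symm (ρ ⟨i x, hx⟩) = x
    rw [MulEquiv.symm_apply_eq]
    have := hρ (j x)
    have e : Subgroup.inclusion hHK (j x) = ⟨i x, hx⟩ := by
      apply Subtype.ext
      rfl
    rw [e] at this
    exact this
  let K' : Subgroup K := (Subgroup.zpowers h).comap σ
  have hK' : K'.FiniteIndex := by
    refine ⟨?_⟩
    rw [Subgroup.index_comap]
    intro h0
    exact hfi.index_ne_zero (Subgroup.index_eq_zero_of_relIndex_eq_zero h0)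
  have hex : ∀ g : G, ∃ n : ℤ, ∀ hg : g ∈ K, σ ⟨g, hg⟩ ∈ Subgroup.zpowers h → h ^ n = σ ⟨g, hg⟩ := by
    intro g
    by_cases hg : g ∈ K
    · by_cases hg' : σ ⟨g, hg⟩ ∈ Subgroup.zpowers h
      · obtain ⟨n, hn⟩ := hg'
        exact ⟨n, fun _ _ => hn⟩
      · exact ⟨0, fun _ h => absurd h hg'⟩
    · exact ⟨0, fun h => absurd h hg⟩
  choose R hR using hex
  have hinj := injective_zpow_iff_not_isOfFinOrder.2 ho
  have hmem : ∀ g : G, g ∈ K'.map K.subtype ↔ ∃ hg : g ∈ K, σ ⟨g, hg⟩ ∈ Subgroup.zpowers h := by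
    intro g
    constructor
    · rintro ⟨k, hk, rfl⟩
      exact ⟨k.2, hk⟩
    · rintro ⟨hg, hg'⟩
      exact ⟨⟨g, hg⟩, hg', rfl⟩
  refine ⟨⟨K'.map K.subtype, ?_, R, ?_, ?_, ?_⟩⟩
  · refine ⟨?_⟩
    rw [Subgroup.index_map_subtype]
    exact mul_ne_zero hK'.index_ne_zero hK.index_ne_zero
  · intro a ha b hb
    obtain ⟨ha1, ha2⟩ := (hmem a).1 ha
    obtain ⟨hb1, hb2⟩ := (hmem b).1 hb
    apply hinj
    have e : σ ⟨a * b, mul_mem ha1 hb1⟩ = σ ⟨a, ha1⟩ * σ ⟨b, hb1⟩ := by
      rw [← map_mul]; rfl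
    show h ^ (R (a * b)) = h ^ (R a + R b)
    rw [zpow_add, hR a ha1 ha2, hR b hb1 hb2, hR (a * b) (mul_mem ha1 hb1) (by
      rw [e]; exact mul_mem ha2 hb2), e]
  · have h1 : i h ∈ K := hHK ⟨h, rfl⟩
    apply hinj
    show h ^ (R (i h)) = h ^ (1 : ℤ)
    rw [hR (i h) h1 (by rw [hσ]; exact Subgroup.mem_zpowers h), hσ, zpow_one]
  · intro x
    have h1 : i x ∈ K := hHK ⟨x, rfl⟩
    rw [hmem]
    constructor
    · rintro ⟨_, h2⟩; rwa [hσ] at h2
    · intro h2; exact ⟨h1, by rw [hσ]; exact h2⟩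

section ed
variable {E G : Type u} [Group E] [Group G] {i : E →* G} {h : E} (D : EdgeData i h)

theorem EdgeData.R_one : D.R 1 = 0 := by
  have := D.add 1 D.K.one_mem 1 D.K.one_mem
  rw [mul_one] at this; linarith

theorem EdgeData.R_inv {a : G} (ha : a ∈ D.K) : D.R a⁻¹ = - D.R a := by
  have := D.add a ha a⁻¹ (inv_mem ha)
  rw [mul_inv_cancel, D.R_one] at this; linarith

theorem EdgeData.R_zpow {a : G} (ha : a ∈ D.K) (n : ℤ) : D.R (a ^ n) = n * D.R a := by
  induction n using Int.induction_on with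
  | zero => simp [D.R_one]
  | succ n ih => rw [zpow_add_one, D.add _ (zpow_mem ha _) _ ha, ih]; ring
  | pred n ih => rw [zpow_sub_one, D.add _ (zpow_mem ha _) _ (inv_mem ha), ih, D.R_inv ha]; ring

end ed

/-- normalise a character -/
theorem normalise {M : Type u} [Group M] (φ : M →* Multiplicative ℤ) (hφ : φ ≠ 1) :
    ∃ (φ' : M →* Multiplicative ℤ) (t : M), vl φ' t = 1 ∧ φ'.ker = φ.ker := by
  obtain ⟨z, hz⟩ : ∃ z : Multiplicative ℤ, Subgroup.zpowers z = φ.range :=
    (Subgroup.isCyclic_iff_exists_zpowers_eq_top _).1 inferInstance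
  obtain ⟨t, ht⟩ : z ∈ φ.range := by rw [← hz]; exact Subgroup.mem_zpowers z
  have hd : ∀ m, ∃ k : ℤ, vl φ m = k * vl φ t := by
    intro m
    have h1 : φ m ∈ φ.range := ⟨m, rfl⟩
    rw [← hz] at h1
    obtain ⟨k, hk⟩ := h1
    simp only at hk
    refine ⟨k, ?_⟩
    rw [vl, vl, ht, ← hk]; simp
  have ht0 : vl φ t ≠ 0 := by
    intro h0
    apply hφ
    ext m
    obtain ⟨k, hk⟩ := hd m
    rw [h0, mul_zero] at hk
    exact hk
  choose k hk using hd
  let φ' : M →* Multiplicative ℤ := MonoidHom.mk' (fun m => Multiplicative.ofAdd (k m)) (by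
    intro a b
    rw [← ofAdd_add]
    congr 1
    apply mul_right_cancel₀ ht0
    rw [← hk, vl_mul, add_mul, ← hk, ← hk])
  have hv : ∀ m, vl φ' m = k m := fun m => rfl
  refine ⟨φ', t, ?_, ?_⟩
  · rw [hv]
    apply mul_right_cancel₀ ht0
    rw [← hk, one_mul]
  · ext m
    rw [mem_ker, mem_ker, hv, hk m]
    constructor
    · intro h; rw [h, zero_mul]
    · intro h
      rcases mul_eq_zero.1 h with h | h
      · exact h
      · exact absurd h ht0

theorem avoid {J : Type v} [Finite J] (x y : J → ℤ) (hxy : ∀ j, x j ≠ 0 ∨ y j ≠ 0) :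
    ∃ B : ℤ, ∀ a : ℤ, B ≤ a → ∀ j, a * x j + y j ≠ 0 := by
  classical
  cases nonempty_fintype J
  refine ⟨1 + ∑ j, |y j|, fun a ha j h0 => ?_⟩
  have h1 : |y j| ≤ ∑ j, |y j| := Finset.single_le_sum (fun j _ => abs_nonneg (y j)) (Finset.mem_univ j)
  by_cases hx : x j = 0
  · rcases hxy j with h | h
    · exact h hx
    · rw [hx, mul_zero, zero_add] at h0; exact h h0
  · have h2 : 1 ≤ |x j| := Int.one_le_abs hx
    have h3 : |a * x j| = |y j| := by
      have : a * x j = -y j := by linarith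
      rw [this, abs_neg]
    rw [abs_mul] at h3
    have h4 : a ≤ |a| := le_abs_self a
    nlinarith [abs_nonneg (y j), abs_nonneg a]

theorem generic {M : Type u} [Group M] {J : Type v} [Finite J] (k : J → M)
    (ψ : J → M →* Multiplicative ℤ) (h : ∀ j, vl (ψ j) (k j) ≠ 0) :
    ∃ Ψ : M →* Multiplicative ℤ, ∀ j, vl Ψ (k j) ≠ 0 := by
  classical
  cases nonempty_fintype J
  have key : ∀ S : Finset J, ∃ Ψ : M →* Multiplicative ℤ, ∀ j ∈ S, vl Ψ (k j) ≠ 0 := by
    intro S
    induction S using Finset.induction_on with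
    | empty => exact ⟨1, by simp⟩
    | insert a S _ ih =>
      obtain ⟨Ψ, hΨ⟩ := ih
      obtain ⟨B, hB⟩ := avoid (J := {j // j ∈ insert a S}) (fun j => vl Ψ (k j)) (fun j => vl (ψ a) (k j)) (by
        rintro ⟨j, hj⟩
        rcases Finset.mem_insert.1 hj with rfl | hj
        · right; exact h j
        · left; exact hΨ j hj)
      refine ⟨Ψ ^ B * ψ a, fun j hj => ?_⟩
      rw [vl_comb]
      exact hB B le_rfl ⟨j, hj⟩
  obtain ⟨Ψ, hΨ⟩ := key Finset.univ
  exact ⟨Ψ, fun j => hΨ j (Finset.mem_univ _)⟩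

/-- transfer of finite generation of the kernel to a finite index subgroup -/
theorem restrict_ker {G : Type u} [Group G] (L M : Subgroup G) (hML : M ≤ L) [hM : M.FiniteIndex]
    (φ : L →* Multiplicative ℤ) (hφ : φ ≠ 1) (hfg : φ.ker.FG) :
    (φ.comp (Subgroup.inclusion hML)) ≠ 1 ∧ (φ.comp (Subgroup.inclusion hML)).ker.FG := by
  constructor
  · intro h1
    apply hφ
    ext l
    have hMi : (M.subgroupOf L).index ≠ 0 := (inferInstance : (M.subgroupOf L).FiniteIndex).index_ne_zero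
    obtain ⟨n, hn, _, hmem⟩ := Subgroup.exists_pow_mem_of_index_ne_zero hMi l
    have h2 := DFunLike.congr_fun h1 ⟨(l : G) ^ n, hmem⟩
    have h3 : φ (l ^ n) = 1 := h2
    rw [map_pow] at h3
    have h4 := congrArg Multiplicative.toAdd h3
    rw [toAdd_pow, toAdd_one] at h4
    have h5 : (Multiplicative.toAdd (φ l)) = 0 := by
      have h6 : (n : ℤ) * Multiplicative.toAdd (φ l) = 0 := by simpa using h4
      rcases mul_eq_zero.1 h6 with h | h
      · exact absurd h (by exact_mod_cast hn.ne')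
      · exact h
    exact h5
  · -- the kernel is isomorphic to a finite index subgroup of `φ.ker`
    have hfg' : Group.FG φ.ker := (Group.fg_iff_subgroup_fg _).2 hfg
    let ι : (φ.comp (Subgroup.inclusion hML)).ker →* φ.ker :=
      { toFun := fun m => ⟨Subgroup.inclusion hML m.1, m.2⟩
        map_one' := rfl
        map_mul' := fun _ _ => rfl }
    have hι : Function.Injective ι := by
      intro a b hab
      have h1 := congrArg (fun q : φ.ker => ((q : L) : G)) hab
      exact Subtype.ext (Subtype.ext h1)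
    have hr : ι.range.FiniteIndex := by
      have h1 : (M.comap (L.subtype.comp φ.ker.subtype)) ≤ ι.range := by
        intro q hq
        exact ⟨⟨⟨((q : L) : G), hq⟩, q.2⟩, rfl⟩
      have h2 : (M.comap (L.subtype.comp φ.ker.subtype)).FiniteIndex := by
        refine ⟨?_⟩
        rw [Subgroup.index_comap]
        intro h0
        exact hM.index_ne_zero (Subgroup.index_eq_zero_of_relIndex_eq_zero h0)
      exact Subgroup.finiteIndex_of_le h1
    have h3 : Group.FG ι.range := Subgroup.fg_of_index_ne_zero _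
    rw [← Group.fg_iff_subgroup_fg]
    exact Group.fg_of_surjective (f := (MonoidHom.ofInjective hι).symm.toMonoidHom)
      (MonoidHom.ofInjective hι).symm.surjective


/-- the vertex statement -/
theorem vertex {G : Type u} [Group G] (hG : VFibered G) {I : Type v} [Finite I] (E : I → Type u)
    [∀ e, Group (E e)] (i : ∀ e, E e →* G) (h : ∀ e, E e)
    (D : ∀ e, EdgeData (i e) (h e)) :
    ∃ c : I → ℕ, (∀ e, 0 < c e) ∧ ∀ n : ℕ, 0 < n → ∃ M : Subgroup G, M.Normal ∧ M.FiniteIndex ∧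
      ∃ θ : M →* Multiplicative ℤ, θ.ker.FG ∧ (∃ m, vl θ m ≠ 0) ∧
      ∀ e, (∀ x : E e, i e x ∈ M ↔ x ∈ Subgroup.zpowers (h e ^ (n * c e))) ∧
        ∀ (g : G) (hg : g⁻¹ * i e (h e ^ (n * c e)) * g ∈ M), vl θ ⟨_, hg⟩ ≠ 0 := by
  classical
  cases nonempty_fintype I
  obtain ⟨L, hL, φL, hφL, hfg⟩ := hG
  have hKfi : (⨅ e, (D e).K).FiniteIndex := Subgroup.finiteIndex_iInf fun e => (D e).fin
  let M' : Subgroup G := (L ⊓ ⨅ e, (D e).K).normalCore
  have hM'fi : M'.FiniteIndex := Subgroup.finiteIndex_normalCore _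
  have hM'n : M'.Normal := inferInstance
  have hM'L : M' ≤ L := (Subgroup.normalCore_le _).trans inf_le_left
  have hM'K : ∀ e, M' ≤ (D e).K := fun e =>
    (Subgroup.normalCore_le _).trans (inf_le_right.trans (iInf_le _ e))
  -- the exponents of `M'`
  have ha : ∀ e, ∃ a : ℕ, 0 < a ∧ ∀ k : ℤ, i e (h e ^ k) ∈ M' ↔ (a : ℤ) ∣ k := by
    intro e
    let A : AddSubgroup ℤ :=
      { carrier := {k | i e (h e ^ k) ∈ M'}
        zero_mem' := by
          show i e (h e ^ (0 : ℤ)) ∈ M'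
          rw [zpow_zero, map_one]; exact one_mem _
        add_mem' := by
          intro a b (ha : i e (h e ^ a) ∈ M') (hb : i e (h e ^ b) ∈ M')
          show i e (h e ^ (a + b)) ∈ M'
          rw [zpow_add, map_mul]; exact mul_mem ha hb
        neg_mem' := by
          intro a (ha : i e (h e ^ a) ∈ M')
          show i e (h e ^ (-a)) ∈ M'
          rw [zpow_neg, map_inv]; exact inv_mem ha }
    obtain ⟨a, hA⟩ := Int.subgroup_cyclic A
    have hmem : ∀ k, i e (h e ^ k) ∈ M' ↔ a ∣ k := by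
      intro k
      have : k ∈ A ↔ k ∈ AddSubgroup.closure {a} := by rw [hA]
      rw [← AddSubgroup.zmultiples_eq_closure, Int.mem_zmultiples_iff] at this
      exact this
    have ha0 : a ≠ 0 := by
      rintro rfl
      obtain ⟨n, hn, _, hm⟩ := Subgroup.exists_pow_mem_of_index_ne_zero hM'fi.index_ne_zero (i e (h e))
      rw [← map_pow, ← zpow_natCast, hmem, zero_dvd_iff] at hm
      omega
    exact ⟨a.natAbs, Int.natAbs_pos.2 ha0, fun k => by rw [hmem, Int.natAbs_dvd]⟩
  choose a ha0 ha using ha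
  -- the gcds
  have hconj : ∀ (x m : G), m ∈ M' → x * m * x⁻¹ ∈ M' := fun x m hm => hM'n.conj_mem m hm x
  have hia : ∀ e, i e (h e ^ (a e : ℤ)) ∈ M' := fun e => (ha e _).2 dvd_rfl
  have hg : ∀ e, ∃ g : ℕ, 0 < g ∧ ∀ N l : ℤ, (∀ (e' : I) (x : G),
      N ∣ (D e').R (x * i e (h e ^ ((a e : ℤ) * l)) * x⁻¹)) ↔ N ∣ l * g := by
    intro e
    let S : Set ℤ := {r | ∃ (e' : I) (x : G), r = (D e').R (x * i e (h e ^ (a e : ℤ)) * x⁻¹)}
    obtain ⟨g, hg⟩ := Int.subgroup_cyclic (AddSubgroup.closure S)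
    rw [← AddSubgroup.zmultiples_eq_closure g] at hg
    have hS : ∀ r ∈ S, g ∣ r := by
      intro r hr
      have : r ∈ AddSubgroup.closure S := AddSubgroup.subset_closure hr
      rwa [hg, Int.mem_zmultiples_iff] at this
    have hgS : ∀ N l : ℤ, (∀ r ∈ S, N ∣ l * r) → N ∣ l * g := by
      intro N l hN
      have h1 : AddSubgroup.closure S ≤ (AddSubgroup.zmultiples N).comap (AddMonoidHom.mulLeft l) := by
        rw [AddSubgroup.closure_le]
        intro r hr
        show l * r ∈ AddSubgroup.zmultiples N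
        rw [Int.mem_zmultiples_iff]; exact hN r hr
      have h2 : g ∈ AddSubgroup.closure S := by rw [hg]; exact AddSubgroup.mem_zmultiples g
      have h3 := h1 h2
      have h4 : l * g ∈ AddSubgroup.zmultiples N := h3
      rwa [Int.mem_zmultiples_iff] at h4
    have hg0 : g ≠ 0 := by
      rintro rfl
      have h1 : (D e).R (1 * i e (h e ^ (a e : ℤ)) * 1⁻¹) ∈ S := ⟨e, 1, rfl⟩
      have h2 := hS _ h1
      rw [zero_dvd_iff, one_mul, inv_one, mul_one, map_zpow, (D e).R_zpow, (D e).one, mul_one] at h2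
      · have := ha0 e
        omega
      · rw [(D e).mem]; exact Subgroup.mem_zpowers _
    have hpow : ∀ (e' : I) (x : G) (l : ℤ), (D e').R (x * i e (h e ^ ((a e : ℤ) * l)) * x⁻¹) =
        l * (D e').R (x * i e (h e ^ (a e : ℤ)) * x⁻¹) := by
      intro e' x l
      rw [zpow_mul, map_zpow, ← conj_zpow, (D e').R_zpow]
      exact hM'K e' (hconj x _ (hia e))
    refine ⟨g.natAbs, Int.natAbs_pos.2 hg0, fun N l => ?_⟩
    have h5 : N ∣ l * (g.natAbs : ℤ) ↔ N ∣ l * g := by
      rcases Int.natAbs_eq g with h | h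
      · rw [← h]
      · have : l * g = -(l * (g.natAbs : ℤ)) := by
          rw [← mul_neg, ← h]
        rw [this, dvd_neg]
    rw [h5]
    constructor
    · intro hN
      apply hgS
      rintro r ⟨e', x, rfl⟩
      rw [← hpow]; exact hN e' x
    · intro hN e' x
      rw [hpow]
      exact hN.trans (mul_dvd_mul_left l (hS _ ⟨e', x, rfl⟩))
  choose g hg0 hg using hg
  -- the constants
  have hq : ∀ e, ∃ q : ℕ, (∏ e', g e') = g e * q := fun e =>
    Finset.dvd_prod_of_mem g (Finset.mem_univ e)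
  choose q hq using hq
  have hprod : 0 < ∏ e', g e' := Finset.prod_pos fun e _ => hg0 e
  have hq0 : ∀ e, 0 < q e := by
    intro e
    rcases Nat.eq_zero_or_pos (q e) with h0 | h0
    · rw [hq e, h0] at hprod; simp at hprod
    · exact h0
  refine ⟨fun e => a e * q e, fun e => Nat.mul_pos (ha0 e) (hq0 e), ?_⟩
  intro n hn
  -- the subgroup `M`
  let Q : I → Subgroup G := fun e =>
    { carrier := {m | m ∈ M' ∧ ((n * ∏ e', g e' : ℕ) : ℤ) ∣ (D e).R m}
      one_mem' := ⟨one_mem _, by rw [(D e).R_one]; exact dvd_zero _⟩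
      mul_mem' := by
        rintro x y ⟨hx, hx'⟩ ⟨hy, hy'⟩
        refine ⟨mul_mem hx hy, ?_⟩
        rw [(D e).add _ (hM'K e hx) _ (hM'K e hy)]
        exact dvd_add hx' hy'
      inv_mem' := by
        rintro x ⟨hx, hx'⟩
        refine ⟨inv_mem hx, ?_⟩
        rw [(D e).R_inv (hM'K e hx)]
        exact (dvd_neg).2 hx' }
  have hmemQ : ∀ e m, m ∈ Q e ↔ m ∈ M' ∧ ((n * ∏ e', g e' : ℕ) : ℤ) ∣ (D e).R m := fun _ _ => Iff.rfl
  have hNpos : 0 < n * ∏ e', g e' := Nat.mul_pos hn hprod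
  have hQfi : ∀ e, (Q e).FiniteIndex := by
    intro e
    -- the kernel of `M' → ℤ/N`
    let N := n * ∏ e', g e'
    have : NeZero N := ⟨hNpos.ne'⟩
    let f : M' →* Multiplicative (ZMod N) := MonoidHom.mk' (fun m => Multiplicative.ofAdd (((D e).R m : ℤ) : ZMod N)) (by
      intro x y
      rw [← ofAdd_add, ← Int.cast_add, ← (D e).add _ (hM'K e x.2) _ (hM'K e y.2)]
      rfl)
    have hf : f.ker.FiniteIndex := by
      have : Finite (Multiplicative (ZMod N)) := inferInstance
      infer_instance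
    have hle : f.ker.map M'.subtype ≤ Q e := by
      rintro _ ⟨m, hm, rfl⟩
      refine ⟨m.2, ?_⟩
      have h1 : (((D e).R m : ℤ) : ZMod N) = 0 := hm
      exact (ZMod.intCast_zmod_eq_zero_iff_dvd _ _).1 h1
    have h2 : (f.ker.map M'.subtype).FiniteIndex := by
      refine ⟨?_⟩
      rw [Subgroup.index_map_subtype]
      exact mul_ne_zero hf.index_ne_zero hM'fi.index_ne_zero
    exact Subgroup.finiteIndex_of_le hle
  have hQfi' : (⨅ e, Q e).FiniteIndex := Subgroup.finiteIndex_iInf hQfi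
  let M : Subgroup G := (M' ⊓ ⨅ e, Q e).normalCore
  have hMfi : M.FiniteIndex := Subgroup.finiteIndex_normalCore _
  have hMn : M.Normal := inferInstance
  have hMM' : M ≤ M' := (Subgroup.normalCore_le _).trans inf_le_left
  have hMmem : ∀ m, m ∈ M ↔ m ∈ M' ∧ ∀ (e' : I) (x : G),
      ((n * ∏ e', g e' : ℕ) : ℤ) ∣ (D e').R (x * m * x⁻¹) := by
    intro m
    constructor
    · intro hm
      refine ⟨hMM' hm, fun e' x => ?_⟩
      have h1 : x * m * x⁻¹ ∈ M' ⊓ ⨅ e, Q e := hm x
      have h2 : x * m * x⁻¹ ∈ Q e' := (Subgroup.mem_iInf.1 h1.2) e'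
      exact h2.2
    · rintro ⟨hm, hm'⟩ x
      refine ⟨hconj x m hm, ?_⟩
      show x * m * x⁻¹ ∈ (⨅ e, Q e)
      rw [Subgroup.mem_iInf]
      intro e
      exact ⟨hconj x m hm, hm' e x⟩
  have hexact : ∀ e, ∀ x : E e, i e x ∈ M ↔ x ∈ Subgroup.zpowers (h e ^ (n * (a e * q e))) := by
    intro e x
    rw [hMmem]
    constructor
    · rintro ⟨h1, h2⟩
      obtain ⟨k, rfl⟩ := ((D e).mem x).1 (hM'K e h1)
      simp only at h1 h2 ⊢
      obtain ⟨l, rfl⟩ := (ha e k).1 h1
      have h3 := (hg e _ l).1 h2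
      rw [hq e] at h3
      have h4 : ((n * q e : ℕ) : ℤ) ∣ l := by
        have h5 : ((n * (g e * q e) : ℕ) : ℤ) = ((n * q e : ℕ) : ℤ) * (g e : ℤ) := by
          push_cast; ring
        rw [h5] at h3
        exact Int.dvd_of_mul_dvd_mul_right (by have := hg0 e; omega) h3
      obtain ⟨m, rfl⟩ := h4
      refine ⟨m, ?_⟩
      simp only
      rw [← zpow_natCast, ← zpow_mul]
      congr 1
      push_cast; ring
    · rintro ⟨m, rfl⟩
      simp only
      rw [← zpow_natCast, ← zpow_mul]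
      have e1 : ((n * (a e * q e) : ℕ) : ℤ) * m = (a e : ℤ) * ((n * q e : ℕ) * m) := by
        push_cast; ring
      rw [e1]
      refine ⟨(ha e _).2 (dvd_mul_right _ _), fun e' x => ?_⟩
      revert e' x
      rw [hg]
      rw [hq e]
      refine ⟨m, ?_⟩
      push_cast; ring
  refine ⟨M, hMn, hMfi, ?_⟩
  -- the character
  obtain ⟨hne, hfg'⟩ := restrict_ker L M (hMM'.trans hM'L) φL hφL hfg
  obtain ⟨φ, t, ht, hker⟩ := normalise _ hne
  rw [← hker] at hfg'
  have hz : ∀ e, i e (h e ^ (n * (a e * q e))) ∈ M := fun e => (hexact e _).2 (Subgroup.mem_zpowers _)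
  let kk : Option (I × (G ⧸ M)) → M := fun o => match o with
    | none => t
    | some p => ⟨(Quotient.out p.2)⁻¹ * i p.1 (h p.1 ^ (n * (a p.1 * q p.1))) * Quotient.out p.2, by
        have := hMn.conj_mem _ (hz p.1) (Quotient.out p.2)⁻¹
        rwa [inv_inv] at this⟩
  let ψψ : Option (I × (G ⧸ M)) → M →* Multiplicative ℤ := fun o => match o with
    | none => φ
    | some p => MonoidHom.mk' (fun m => Multiplicative.ofAdd
        ((D p.1).R (Quotient.out p.2 * m * (Quotient.out p.2)⁻¹))) (by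
          intro x y
          rw [← ofAdd_add, ← (D p.1).add _ (hM'K _ (hconj _ _ (hMM' x.2))) _
            (hM'K _ (hconj _ _ (hMM' y.2)))]
          congr 2
          push_cast
          group)
  have hkψ : ∀ j, vl (ψψ j) (kk j) ≠ 0 := by
    rintro (_ | ⟨e, x⟩)
    · show vl φ t ≠ 0
      rw [ht]; exact one_ne_zero
    · show (D e).R (Quotient.out x * ((Quotient.out x)⁻¹ * i e (h e ^ (n * (a e * q e))) *
        Quotient.out x) * (Quotient.out x)⁻¹) ≠ 0
      have e1 : (Quotient.out x * ((Quotient.out x)⁻¹ * i e (h e ^ (n * (a e * q e))) *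
        Quotient.out x) * (Quotient.out x)⁻¹) = (i e (h e)) ^ ((n * (a e * q e) : ℕ) : ℤ) := by
        rw [zpow_natCast, ← map_pow]; group
      rw [e1, (D e).R_zpow, (D e).one, mul_one]
      · have h1 : 0 < n * (a e * q e) := Nat.mul_pos hn (Nat.mul_pos (ha0 e) (hq0 e))
        exact_mod_cast h1.ne'
      · rw [(D e).mem]; exact Subgroup.mem_zpowers _
  have hfinJ : Finite (Option (I × (G ⧸ M))) := inferInstance
  obtain ⟨Ψ, hΨ⟩ := generic kk ψψ hkψ
  obtain ⟨B, hB⟩ := avoid (fun j => vl φ (kk j)) (fun j => vl Ψ (kk j)) (fun j => Or.inr (hΨ j))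
  obtain ⟨A, hA, hAfg⟩ := open_lemma φ Ψ t ht hfg' B
  refine ⟨φ ^ A * Ψ, hAfg, ⟨kk none, ?_⟩, fun e => ⟨hexact e, ?_⟩⟩
  · rw [vl_comb]; exact hB A hA none
  · intro x hx
    set θ := φ ^ A * Ψ with hθ
    -- `x = out (x M) * m`
    have h1 : (Quotient.out (QuotientGroup.mk x : G ⧸ M))⁻¹ * x ∈ M := by
      rw [← QuotientGroup.eq]; exact QuotientGroup.out_eq' _
    set m : M := ⟨_, h1⟩ with hm
    have h2 : (⟨x⁻¹ * i e (h e ^ (n * (a e * q e))) * x, hx⟩ : M) =
        m⁻¹ * kk (some (e, QuotientGroup.mk x)) * m := by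
      apply Subtype.ext
      show x⁻¹ * i e (h e ^ (n * (a e * q e))) * x =
        ((Quotient.out (QuotientGroup.mk x : G ⧸ M))⁻¹ * x)⁻¹ *
          ((Quotient.out (QuotientGroup.mk x : G ⧸ M))⁻¹ * i e (h e ^ (n * (a e * q e))) *
            Quotient.out (QuotientGroup.mk x : G ⧸ M)) *
          ((Quotient.out (QuotientGroup.mk x : G ⧸ M))⁻¹ * x)
      group
    have h3 : vl θ (⟨x⁻¹ * i e (h e ^ (n * (a e * q e))) * x, hx⟩ : M) =
        vl θ (kk (some (e, QuotientGroup.mk x))) := by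
      rw [h2, vl_mul, vl_mul, vl_inv]; ring
    rw [h3, hθ, vl_comb]
    exact hB A hA (some (e, QuotientGroup.mk x))

end Pool.Agent.X260.Vert
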