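import Mathlib
import Pool.Agent.X260.Vert
import Pool.Agent.X260.Stab
set_option autoImplicit false

/-! The basic action of a vertex group on `(G ⧸ M) × ℤ`. -/

namespace Pool.Agent.X260.Base
open Pool.Agent.X260.VF Pool.Agent.X260.Opn Pool.Agent.X260.Glue Pool.Agent.X260.Stab

universe u v

variable {G : Type u} [Group G] (M : Subgroup G) [hMn : M.Normal] (θ : M →* Multiplicative ℤ)

open Classical in
/-- the character, extended by zero -/
noncomputable def Va (g : G) : ℤ := if h : g ∈ M then vl θ ⟨g, h⟩ else 0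

omit hMn in
theorem Va_eq {g : G} (h : g ∈ M) : Va M θ g = vl θ ⟨g, h⟩ := by
  rw [Va, dif_pos h]

omit hMn in
theorem Va_mul {g h : G} (hg : g ∈ M) (hh : h ∈ M) : Va M θ (g * h) = Va M θ g + Va M θ h := by
  rw [Va_eq M θ hg, Va_eq M θ hh, Va_eq M θ (mul_mem hg hh), ← vl_mul]; rfl

omit hMn in
theorem Va_one : Va M θ 1 = 0 := by
  rw [Va_eq M θ (one_mem _)]; exact vl_one θ

/-- the section -/
noncomputable def sg (x : G ⧸ M) : G := Quotient.out x

omit hMn in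
theorem sg_mem (g : G) (x : G ⧸ M) : (sg M (g • x))⁻¹ * g * sg M x ∈ M := by
  rw [mul_assoc, ← QuotientGroup.eq]
  rw [sg, sg, QuotientGroup.out_eq']
  have : ((g * Quotient.out x : G) : G ⧸ M) = g • ((Quotient.out x : G) : G ⧸ M) := rfl
  rw [this, QuotientGroup.out_eq']

/-- the cocycle -/
noncomputable def co (g : G) (x : G ⧸ M) : ℤ := Va M θ ((sg M (g • x))⁻¹ * g * sg M x)

omit hMn in
theorem co_mul (g h : G) (x : G ⧸ M) : co M θ (g * h) x = co M θ g (h • x) + co M θ h x := by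
  rw [co, co, co, ← Va_mul M θ (sg_mem M g (h • x)) (sg_mem M h x), mul_smul]
  congr 1
  group

omit hMn in
theorem co_one (x : G ⧸ M) : co M θ 1 x = 0 := by
  rw [co, one_smul]
  have : (sg M x)⁻¹ * 1 * sg M x = 1 := by group
  rw [this, Va_one]

/-- the basic action -/
noncomputable def base : G →* TP (G ⧸ M) where
  toFun g := mkTP (fun p => (g • p.1, p.2 + co M θ g p.1)) (fun p => (g⁻¹ • p.1, p.2 + co M θ g⁻¹ p.1))
    (by
      rintro ⟨x, n⟩
      have h := co_mul M θ g⁻¹ g x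
      rw [inv_mul_cancel, co_one] at h
      simp only [inv_smul_smul, Prod.mk.injEq, true_and]
      linarith)
    (by
      rintro ⟨x, n⟩
      have h := co_mul M θ g g⁻¹ x
      rw [mul_inv_cancel, co_one] at h
      simp only [smul_inv_smul, Prod.mk.injEq, true_and]
      linarith)
    (by
      rintro ⟨x, n⟩ k
      simp only [Prod.mk.injEq, true_and]
      ring)
  map_one' := by
    apply ap_ext
    rintro ⟨x, n⟩
    rw [ap_mkTP, ap_one]
    simp only [one_smul, co_one, add_zero]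
  map_mul' := by
    intro g h
    apply ap_ext
    rintro ⟨x, n⟩
    rw [ap_mul, ap_mkTP, ap_mkTP, ap_mkTP]
    simp only [mul_smul, co_mul, Prod.mk.injEq, true_and]
    ring

omit hMn in
theorem ap_base (g : G) (p : (G ⧸ M) × ℤ) : ap (base M θ g) p = (g • p.1, p.2 + co M θ g p.1) := rfl

theorem base_fst (g : G) (p : (G ⧸ M) × ℤ) : (ap (base M θ g) p).1 = p.1 ↔ g ∈ M := by
  rw [ap_base]
  obtain ⟨x, n⟩ := p
  show g • x = x ↔ g ∈ M
  induction x using QuotientGroup.induction_on with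
  | H a =>
    have h1 : g • (a : G ⧸ M) = ((g * a : G) : G ⧸ M) := rfl
    rw [h1, QuotientGroup.eq]
    have h2 : (g * a)⁻¹ * a = a⁻¹ * g⁻¹ * a⁻¹⁻¹ := by group
    rw [h2, hMn.mem_comm_iff]
    have h3 : a⁻¹⁻¹ * (a⁻¹ * g⁻¹) = g⁻¹ := by group
    rw [h3, inv_mem_iff]

theorem base_mem {g : G} (hg : g ∈ M) (p : (G ⧸ M) × ℤ) :
    ap (base M θ g) p = (p.1, p.2 + Va M θ ((sg M p.1)⁻¹ * g * sg M p.1)) := by
  have h1 : g • p.1 = p.1 := (base_fst M θ g p).2 hg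
  rw [ap_base, co, h1]

theorem conj_mem' {g : G} (hg : g ∈ M) (x : G) : x⁻¹ * g * x ∈ M := by
  have := hMn.conj_mem g hg x⁻¹
  rwa [inv_inv] at this

theorem base_good {E : Type v} [Group E] (i : E →* G) (z : E)
    (hz : ∀ x : E, i x ∈ M ↔ x ∈ Subgroup.zpowers z)
    (hθ : ∀ (g : G) (hg : g⁻¹ * i z * g ∈ M), vl θ ⟨_, hg⟩ ≠ 0) :
    (∀ (g : E) (p : (G ⧸ M) × ℤ), (ap (base M θ (i g)) p).1 = p.1 ↔ g ∈ Subgroup.zpowers z) ∧
    ∀ p : (G ⧸ M) × ℤ, ∃ e : ℤ, e ≠ 0 ∧ ap (base M θ (i z)) p = (p.1, p.2 + e) := by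
  have hzM : i z ∈ M := (hz z).2 (Subgroup.mem_zpowers z)
  refine ⟨fun g p => (base_fst M θ (i g) p).trans (hz g), fun p => ?_⟩
  refine ⟨_, ?_, base_mem M θ hzM p⟩
  rw [Va_eq M θ (conj_mem' M hzM _)]
  exact hθ _ _

theorem base_St_fg (hfg : θ.ker.FG) (p : (G ⧸ M) × ℤ) : (St (base M θ) p).FG := by
  obtain ⟨S, hS, hSf⟩ := (Subgroup.fg_iff _).1 hfg
  rw [Subgroup.fg_iff]
  refine ⟨(fun m : M => sg M p.1 * m * (sg M p.1)⁻¹) '' S, ?_, hSf.image _⟩
  let f : M →* G := (MulAut.conj (sg M p.1)).toMonoidHom.comp M.subtype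
  have hf : (fun m : M => sg M p.1 * m * (sg M p.1)⁻¹) = f := by
    funext m; rfl
  rw [hf, ← MonoidHom.map_closure, hS]
  ext g
  constructor
  · rintro ⟨m, hm, rfl⟩
    show ap (base M θ (sg M p.1 * m * (sg M p.1)⁻¹)) p = p
    have h1 : sg M p.1 * m * (sg M p.1)⁻¹ ∈ M := hMn.conj_mem m m.2 _
    rw [base_mem M θ h1]
    have h2 : (sg M p.1)⁻¹ * (sg M p.1 * (m : G) * (sg M p.1)⁻¹) * sg M p.1 = m := by group
    rw [h2, Va_eq M θ m.2]
    have h3 : vl θ m = 0 := (mem_ker θ m).1 hm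
    rw [h3, add_zero]
  · intro hg
    have hg' : ap (base M θ g) p = p := hg
    have h1 : g ∈ M := (base_fst M θ g p).1 (by rw [hg'])
    rw [base_mem M θ h1] at hg'
    have h2 := congrArg Prod.snd hg'
    simp only at h2
    rw [Va_eq M θ (conj_mem' M h1 _)] at h2
    refine ⟨⟨_, conj_mem' M h1 (sg M p.1)⟩, ?_, ?_⟩
    · rw [SetLike.mem_coe, mem_ker]; linarith
    · show sg M p.1 * ((sg M p.1)⁻¹ * g * sg M p.1) * (sg M p.1)⁻¹ = g
      group

theorem base_nontriv (hne : ∃ m, vl θ m ≠ 0) (p : (G ⧸ M) × ℤ) :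
    ∃ (g : G) (c : ℤ), c ≠ 0 ∧ ap (base M θ g) p = (p.1, p.2 + c) := by
  obtain ⟨m, hm⟩ := hne
  refine ⟨sg M p.1 * m * (sg M p.1)⁻¹, vl θ m, hm, ?_⟩
  rw [base_mem M θ (hMn.conj_mem m m.2 _)]
  have h2 : (sg M p.1)⁻¹ * (sg M p.1 * (m : G) * (sg M p.1)⁻¹) * sg M p.1 = m := by group
  rw [h2, Va_eq M θ m.2]

end Pool.Agent.X260.Base
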