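import Mathlib
import Pool.Agent.X260.Base
set_option autoImplicit false

/-! Trees of groups. -/

namespace Pool.Agent.X260.Tree
open Pool.Agent.X260.VF Pool.Agent.X260.Opn Pool.Agent.X260.Glue Pool.Agent.X260.Stab
open Pool.Agent.X260.Vert Pool.Agent.X260.Base

universe u v w

/-- growing a finite tree, one leaf at a time -/
theorem tree_grow {V : Type v} [Fintype V] [DecidableEq V] (Γ : SimpleGraph V) (hΓ : Γ.IsTree)
    (P : Finset V → Prop) (h1 : ∀ v, P {v})
    (h2 : ∀ (S : Finset V) (v w : V), P S → v ∈ S → w ∉ S → Γ.Adj v w →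
      (∀ u ∈ S, Γ.Adj u w → u = v) → P (insert w S)) : P Finset.univ := by
  let Q : Finset V → Prop := fun S => P S ∧ S.Nonempty ∧
    ∀ a ∈ S, ∀ b ∈ S, ∃ p : Γ.Walk a b, ∀ x ∈ p.support, x ∈ S
  have key : ∀ (n : ℕ) (S : Finset V), Q S → Fintype.card V - S.card = n → P Finset.univ := by
    intro n
    induction n with
    | zero =>
      intro S hS hn
      have h3 : S.card = Fintype.card V := le_antisymm (Finset.card_le_univ S) (by omega)
      rw [Finset.card_eq_iff_eq_univ] at h3
      rw [← h3]; exact hS.1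
    | succ n ih =>
      intro S hS hn
      obtain ⟨hP, ⟨s, hs⟩, hw⟩ := hS
      obtain ⟨t, ht⟩ : ∃ t, t ∉ S := by
        by_contra hcon
        push Not at hcon
        have : S = Finset.univ := Finset.eq_univ_iff_forall.2 hcon
        rw [this, Finset.card_univ] at hn; omega
      obtain ⟨p⟩ := hΓ.connected.preconnected s t
      obtain ⟨d, _, hd1, hd2⟩ := p.exists_boundary_dart (S : Set V) hs ht
      have hadj : Γ.Adj d.fst d.snd := d.adj
      have hd1' : d.fst ∈ S := hd1
      have hd2' : d.snd ∉ S := hd2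
      generalize d.fst = a at hadj hd1'
      generalize d.snd = w at hadj hd2'
      refine ih (insert w S) ⟨h2 S a w hP hd1' hd2' hadj ?_, Finset.insert_nonempty _ _, ?_⟩ ?_
      · intro u hu hadj'
        by_contra hne
        obtain ⟨q, hq⟩ := hw a hd1' u hu
        let q1 : Γ.Path a u := q.toPath
        have hq1 : ∀ x ∈ (q1 : Γ.Walk a u).support, x ∈ S := fun x hx =>
          hq x (SimpleGraph.Walk.support_bypass_subset_support q hx)
        let q2 : Γ.Walk a u := SimpleGraph.Walk.cons hadj (SimpleGraph.Walk.cons hadj'.symm .nil)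
        have hq2 : q2.IsPath := by
          simp only [q2, SimpleGraph.Walk.cons_isPath_iff, SimpleGraph.Walk.IsPath.nil,
            SimpleGraph.Walk.support_nil, SimpleGraph.Walk.support_cons, List.mem_cons,
            List.not_mem_nil, or_false, true_and, not_or]
          exact ⟨hadj'.ne', hadj.ne, fun h => hne h.symm⟩
        have h3 : q1 = ⟨q2, hq2⟩ := (hΓ.isAcyclic.subsingleton_path a u).elim _ _
        have h4 : w ∈ (q1 : Γ.Walk a u).support := by
          rw [h3]; simp [q2]
        exact hd2' (hq1 w h4)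
      · have hwa : ∀ b ∈ S, ∃ p : Γ.Walk w b, ∀ x ∈ p.support, x ∈ insert w S := by
          intro b hb
          obtain ⟨q, hq⟩ := hw a hd1' b hb
          refine ⟨SimpleGraph.Walk.cons hadj.symm q, fun x hx => ?_⟩
          rw [SimpleGraph.Walk.support_cons, List.mem_cons] at hx
          rcases hx with rfl | hx
          · exact Finset.mem_insert_self _ _
          · exact Finset.mem_insert_of_mem (hq x hx)
        intro b hb c hc
        rcases Finset.mem_insert.1 hb with rfl | hb'
        · rcases Finset.mem_insert.1 hc with rfl | hc'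
          · exact ⟨.nil, by simp⟩
          · exact hwa c hc'
        · rcases Finset.mem_insert.1 hc with rfl | hc'
          · obtain ⟨q, hq⟩ := hwa b hb'
            exact ⟨q.reverse, fun x hx => hq x (by simpa using hx)⟩
          · obtain ⟨q, hq⟩ := hw b hb' c hc'
            exact ⟨q, fun x hx => Finset.mem_insert_of_mem (hq x hx)⟩
      · rw [Finset.card_insert_of_notMem hd2']; omega
  obtain ⟨v⟩ := hΓ.connected.nonempty
  exact key _ {v} ⟨h1 v, Finset.singleton_nonempty v, fun a ha b hb => by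
    rw [Finset.mem_singleton] at ha hb
    subst ha; subst hb
    exact ⟨.nil, by simp⟩⟩ rfl

/-- extending a relation over a new leaf -/
theorem grow_rel {V : Type v} [DecidableEq V] {Γ : SimpleGraph V} {S : Finset V} {v0 w0 : V}
    (hw0 : w0 ∉ S) (hadj : Γ.Adj v0 w0) (huniq : ∀ u ∈ S, Γ.Adj u w0 → u = v0)
    (R : ∀ (e : Γ.edgeSet) (v w : V), v ∈ e.1 → w ∈ e.1 → Prop)
    (hrefl : ∀ e v hv, R e v v hv hv) (hsymm : ∀ e v w hv hw, R e v w hv hw → R e w v hw hv)
    (hS : ∀ e v w hv hw, v ∈ S → w ∈ S → R e v w hv hw)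
    (h0 : R ⟨s(v0, w0), (SimpleGraph.mem_edgeSet Γ).2 hadj⟩ v0 w0 (Sym2.mem_mk_left _ _) (Sym2.mem_mk_right _ _)) :
    ∀ e v w hv hw, v ∈ insert w0 S → w ∈ insert w0 S → R e v w hv hw := by
  have key : ∀ e v hv (hw : w0 ∈ e.1), v ∈ S → R e v w0 hv hw := by
    intro e v hv hw hvS
    have hne : v ≠ w0 := by rintro rfl; exact hw0 hvS
    have he : e.1 = s(v, w0) := (Sym2.mem_and_mem_iff hne).1 ⟨hv, hw⟩
    have hadj' : Γ.Adj v w0 := by
      have := e.2
      rw [he] at this; exact this
    obtain rfl := huniq v hvS hadj'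
    have he' : e = ⟨s(v, w0), (SimpleGraph.mem_edgeSet Γ).2 hadj⟩ := Subtype.ext he
    subst he'
    exact h0
  intro e v w hv hw hv' hw'
  rcases Finset.mem_insert.1 hv' with rfl | hv''
  · rcases Finset.mem_insert.1 hw' with rfl | hw''
    · exact hrefl _ _ _
    · exact hsymm _ _ _ _ _ (key e w hw hv hw'')
  · rcases Finset.mem_insert.1 hw' with rfl | hw''
    · exact key e v hv hw hv''
    · exact hS _ _ _ _ _ hv'' hw''

/-- the final step: from the action to virtual fibering -/
theorem vfibered_of_action {P : Type v} [Group P] {Ω : Type u} [Finite Ω] (F : P →* TP Ω) (ω : Ω)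
    (hfg : (St F (ω, 0)).FG) (g : P) (c : ℤ) (hc : c ≠ 0) (hg : ap (F g) (ω, 0) = (ω, 0 + c)) :
    VFibered P := by
  -- the permutation action on `Ω`
  let π : TP Ω →* Equiv.Perm Ω := 
    { toFun := fun f =>
        { toFun := fun x => (ap f (x, 0)).1
          invFun := fun x => (ap f⁻¹ (x, 0)).1
          left_inv := by
            intro x
            have h := ap_eq f⁻¹ (ap f (x, 0))
            rw [ap_inv_ap] at h
            exact (congrArg Prod.fst h).symm
          right_inv := by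
            intro x
            have h := ap_eq f (ap f⁻¹ (x, 0))
            rw [ap_ap_inv] at h
            exact (congrArg Prod.fst h).symm }
      map_one' := by
        ext x; rfl
      map_mul' := by
        intro f g
        ext x
        have h := ap_eq f (ap g (x, 0))
        show (ap (f * g) (x, 0)).1 = (ap f ((ap g (x, 0)).1, 0)).1
        rw [ap_mul, h] }
  let K : Subgroup P :=
    { carrier := {k | (ap (F k) (ω, 0)).1 = ω}
      one_mem' := by
        show (ap (F 1) (ω, 0)).1 = ω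
        rw [map_one, ap_one]
      mul_mem' := by
        intro a b (ha : (ap (F a) (ω, 0)).1 = ω) (hb : (ap (F b) (ω, 0)).1 = ω)
        show (ap (F (a * b)) (ω, 0)).1 = ω
        rw [map_mul, ap_mul, ap_eq (F a) (ap (F b) (ω, 0)), hb, ha]
      inv_mem' := by
        intro a (ha : (ap (F a) (ω, 0)).1 = ω)
        show (ap (F a⁻¹) (ω, 0)).1 = ω
        have h := ap_eq (F a)⁻¹ (ap (F a) (ω, 0))
        rw [ap_inv_ap, ha] at h
        rw [map_inv]
        exact (congrArg Prod.fst h).symm }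
  have hKm : ∀ k, k ∈ K ↔ (ap (F k) (ω, 0)).1 = ω := fun _ => Iff.rfl
  have hKfi : K.FiniteIndex := by
    have h1 : (π.comp F).ker ≤ K := by
      intro k hk
      have h2 : π (F k) = 1 := hk
      exact congrArg (fun q : Equiv.Perm Ω => q ω) h2
    have h3 : (π.comp F).ker.FiniteIndex := inferInstance
    exact Subgroup.finiteIndex_of_le h1
  let χ : K →* Multiplicative ℤ := MonoidHom.mk' (fun k => Multiplicative.ofAdd (ap (F k) (ω, 0)).2) (by
    rintro ⟨a, ha⟩ ⟨b, hb⟩
    rw [← ofAdd_add]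
    congr 1
    show (ap (F (a * b)) (ω, 0)).2 = (ap (F a) (ω, 0)).2 + (ap (F b) (ω, 0)).2
    rw [map_mul, ap_mul, ap_eq (F a) (ap (F b) (ω, 0)), (hKm b).1 hb])
  refine ⟨K, hKfi, χ, ?_, ?_⟩
  · intro h1
    have hgK : g ∈ K := by rw [hKm, hg]
    have h2 := DFunLike.congr_fun h1 ⟨g, hgK⟩
    have h3 : (ap (F g) (ω, 0)).2 = 0 := h2
    rw [hg] at h3
    simp only [zero_add] at h3
    exact hc h3
  · have hle : St F (ω, 0) ≤ K := by
      intro k hk
      rw [hKm, mem_St.1 hk]
    have h1 : χ.ker = (St F (ω, 0)).subgroupOf K := by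
      ext ⟨k, hk⟩
      rw [mem_ker, Subgroup.mem_subgroupOf, mem_St]
      show (ap (F k) (ω, 0)).2 = 0 ↔ ap (F k) (ω, 0) = (ω, 0)
      constructor
      · intro h
        apply Prod.ext
        · exact hk
        · exact h
      · intro h; rw [h]
    rw [h1, ← Group.fg_iff_subgroup_fg]
    have h2 : Group.FG (St F (ω, 0)) := (Group.fg_iff_subgroup_fg _).2 hfg
    exact Group.fg_of_surjective (f := (Subgroup.subgroupOfEquivOfLe hle).symm.toMonoidHom)
      (Subgroup.subgroupOfEquivOfLe hle).symm.surjective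

section core
variable {V : Type v} [Finite V] (Γ : SimpleGraph V) (hΓ : Γ.IsTree) (G : V → Type u)
  [∀ v, Group (G v)] (E : Γ.edgeSet → Type u) [∀ e, Group (E e)]
  (ι : ∀ (e : Γ.edgeSet) (v : V), v ∈ e.1 → (E e →* G v))
  (hι : ∀ e v hv, Function.Injective (ι e v hv)) (hG : ∀ v, VFibered (G v))
  (hE : ∀ e, InfVCyclic (E e)) (hr : ∀ e v hv, VRetract (ι e v hv).range)

include hΓ hι hG hE hr in
theorem core (P : Type w) [Group P] (j : ∀ v, G v →* P) (hgen : ⨆ v, (j v).range = ⊤)
    (hcomp : ∀ e v w hv hw, (j v).comp (ι e v hv) = (j w).comp (ι e w hw))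
    (hlift : ∀ (Ω : Type u) (β : ∀ v, G v →* TP Ω),
      (∀ e v w hv hw, (β v).comp (ι e v hv) = (β w).comp (ι e w hw)) →
      ∃ F : P →* TP Ω, ∀ v, F.comp (j v) = β v) : VFibered P := by
  classical
  cases nonempty_fintype V
  -- the infinite cyclic normal subgroups of the edge groups
  choose h hn hfi ho using fun e => exists_good_gen (hE e)
  have D : ∀ e v hv, EdgeData (ι e v hv) (h e) := fun e v hv =>
    (exists_edgeData (ι e v hv) (hι e v hv) (hr e v hv) (h e) (hfi e) (ho e)).some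
  -- the vertex statement
  have hv := fun v => vertex (hG v) (I := {e : Γ.edgeSet // v ∈ e.1}) (fun e => E e.1)
    (fun e => ι e.1 v e.2) (fun e => h e.1) (fun e => D e.1 v e.2)
  choose c hc0 hc using hv
  -- the potential
  obtain ⟨n, hn0, hnn⟩ : ∃ n : V → ℕ, (∀ v, 0 < n v) ∧ ∀ (e : Γ.edgeSet) (v w : V) (hv : v ∈ e.1)
      (hw : w ∈ e.1), n v * c v ⟨e, hv⟩ = n w * c w ⟨e, hw⟩ := by
    have := tree_grow Γ hΓ (fun S => ∃ n : V → ℕ, (∀ v, 0 < n v) ∧ ∀ (e : Γ.edgeSet) (v w : V)
      (hv : v ∈ e.1) (hw : w ∈ e.1), v ∈ S → w ∈ S → n v * c v ⟨e, hv⟩ = n w * c w ⟨e, hw⟩)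
      (by
        intro a
        refine ⟨fun _ => 1, fun _ => one_pos, ?_⟩
        intro e v w hv hw hv' hw'
        rw [Finset.mem_singleton] at hv' hw'
        subst hv'; subst hw'; rfl)
      (by
        rintro S v0 w0 ⟨n, hn0, hn⟩ hv0 hw0 hadj huniq
        let e0 : Γ.edgeSet := ⟨s(v0, w0), (SimpleGraph.mem_edgeSet Γ).2 hadj⟩
        let cw := c w0 ⟨e0, Sym2.mem_mk_right _ _⟩
        let cv := c v0 ⟨e0, Sym2.mem_mk_left _ _⟩
        refine ⟨fun u => if u = w0 then n v0 * cv else n u * cw, ?_, ?_⟩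
        · intro v
          dsimp only
          split_ifs
          · exact Nat.mul_pos (hn0 _) (hc0 _ _)
          · exact Nat.mul_pos (hn0 _) (hc0 _ _)
        · apply grow_rel hw0 hadj huniq
          · intro e v hv; rfl
          · intro e v w hv hw h; exact h.symm
          · intro e v w hv hw hv' hw'
            have h1 : v ≠ w0 := by rintro rfl; exact hw0 hv'
            have h2 : w ≠ w0 := by rintro rfl; exact hw0 hw'
            have h3 := hn e v w hv hw hv' hw'
            beta_reduce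
            rw [if_neg h1, if_neg h2]
            calc n v * cw * c v ⟨e, hv⟩ = (n v * c v ⟨e, hv⟩) * cw := by ring
              _ = (n w * c w ⟨e, hw⟩) * cw := by rw [h3]
              _ = _ := by ring
          · have h1 : v0 ≠ w0 := hadj.ne
            beta_reduce
            rw [if_neg h1, if_pos rfl]
            show n v0 * cw * cv = n v0 * cv * cw
            ring)
    obtain ⟨n, hn0, hnn⟩ := this
    exact ⟨n, hn0, fun e v w hv hw => hnn e v w hv hw (Finset.mem_univ _) (Finset.mem_univ _)⟩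
  choose M hMn hMfi θ hθfg hθne hθ using fun v => hc v (n v) (hn0 v)
  have hMn' : ∀ v, (M v).Normal := hMn
  have hMfi' : ∀ v, (M v).FiniteIndex := hMfi
  -- the element `z_e`
  have hz : ∀ e : Γ.edgeSet, ∃ z : E e, (Subgroup.zpowers z).Normal ∧
      (Subgroup.zpowers z).FiniteIndex ∧ ∀ v (hv : v ∈ e.1),
      Good z ((base (M v) (θ v)).comp (ι e v hv)) := by
    intro e
    obtain ⟨v, hv⟩ : ∃ v, v ∈ e.1 := ⟨(Quot.out e.1).1, Sym2.out_fst_mem _⟩
    refine ⟨h e ^ (n v * c v ⟨e, hv⟩), ?_, ?_, ?_⟩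
    · refine ⟨?_⟩
      rintro _ ⟨k, rfl⟩ g
      simp only
      have h1 : g * h e * g⁻¹ ∈ Subgroup.zpowers (h e) :=
        (hn e).conj_mem _ (Subgroup.mem_zpowers _) g
      obtain ⟨l, hl⟩ := h1
      simp only at hl
      rw [← zpow_natCast, ← zpow_mul, ← conj_zpow, ← hl, ← zpow_mul]
      refine ⟨l * k, ?_⟩
      simp only
      rw [← zpow_mul]
      congr 1; ring
    · -- finite index: it is the preimage of `M v`
      have h1 : Subgroup.zpowers (h e ^ (n v * c v ⟨e, hv⟩)) = (M v).comap (ι e v hv) := by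
        ext x
        rw [Subgroup.mem_comap]
        exact ((hθ v ⟨e, hv⟩).1 x).symm
      rw [h1]
      refine ⟨?_⟩
      rw [Subgroup.index_comap]
      intro h0
      exact (hMfi' v).index_ne_zero (Subgroup.index_eq_zero_of_relIndex_eq_zero h0)
    · intro w hw
      rw [hnn e v w hv hw]
      have h1 := base_good (M w) (θ w) (ι e w hw) (h e ^ (n w * c w ⟨e, hw⟩))
        (hθ w ⟨e, hw⟩).1 (hθ w ⟨e, hw⟩).2
      exact ⟨h1.1, h1.2⟩
  choose z hzn hzfi hgood using hz
  have hfin : ∀ v, Finite (G v ⧸ M v) := fun v => inferInstance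
  -- gluing
  obtain ⟨Ω, hΩ, hΩne, Θ, hΘ, hcom⟩ : ∃ (Ω : Type u) (_ : Finite Ω) (_ : Nonempty Ω)
      (Θ : ∀ v, TP (G v ⧸ M v) →* TP Ω), (∀ v, Nice (Θ v)) ∧ ∀ (e : Γ.edgeSet) (v w : V)
      (hv : v ∈ e.1) (hw : w ∈ e.1), (Θ v).comp ((base (M v) (θ v)).comp (ι e v hv)) =
        (Θ w).comp ((base (M w) (θ w)).comp (ι e w hw)) := by
    have := tree_grow Γ hΓ (fun S => ∃ (Ω : Type u) (_ : Finite Ω) (_ : Nonempty Ω)
      (Θ : ∀ v, TP (G v ⧸ M v) →* TP Ω), (∀ v ∈ S, Nice (Θ v)) ∧ ∀ (e : Γ.edgeSet) (v w : V)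
      (hv : v ∈ e.1) (hw : w ∈ e.1), v ∈ S → w ∈ S →
        (Θ v).comp ((base (M v) (θ v)).comp (ι e v hv)) =
        (Θ w).comp ((base (M w) (θ w)).comp (ι e w hw)))
      (by
        intro a
        refine ⟨G a ⧸ M a, inferInstance, inferInstance,
          Function.update (fun v => (1 : TP (G v ⧸ M v) →* TP (G a ⧸ M a))) a (MonoidHom.id _), ?_, ?_⟩
        · intro v hv
          rw [Finset.mem_singleton] at hv
          subst hv
          rw [Function.update_self]
          intro p
          refine ⟨p, 1, one_ne_zero, fun f => ⟨Iff.rfl, fun c hc => ?_⟩⟩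
          rw [one_mul]; exact hc
        · intro e v w hv hw hv' hw'
          rw [Finset.mem_singleton] at hv' hw'
          subst hv'; subst hw'; rfl)
      (by
        rintro S v0 w0 ⟨Ω, hΩ, hΩne, Θ, hΘ, hcom⟩ hv0 hw0 hadj huniq
        let e0 : Γ.edgeSet := ⟨s(v0, w0), (SimpleGraph.mem_edgeSet Γ).2 hadj⟩
        have hv0e : v0 ∈ e0.1 := Sym2.mem_mk_left _ _
        have hw0e : w0 ∈ e0.1 := Sym2.mem_mk_right _ _
        have hg1 : Good (z e0) ((Θ v0).comp ((base (M v0) (θ v0)).comp (ι e0 v0 hv0e))) :=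
          (hgood e0 v0 hv0e).comp (hΘ v0 hv0)
        have hg2 := hgood e0 w0 hw0e
        have := hzn e0
        have := hzfi e0
        obtain ⟨Ω', hΩ', hΩne', Θ₁, Θ₂, hN1, hN2, hag⟩ := glue _ _ hg1 hg2
        refine ⟨Ω', hΩ', hΩne', Function.update (fun v => Θ₁.comp (Θ v)) w0 Θ₂, ?_, ?_⟩
        · intro v hv
          by_cases h1 : v = w0
          · subst h1
            rw [Function.update_self]; exact hN2
          · rw [Function.update_of_ne h1]
            exact (hΘ v ((Finset.mem_insert.1 hv).resolve_left h1)).comp hN1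
        · apply grow_rel hw0 hadj huniq
          · intro e v hv; rfl
          · intro e v w hv hw h; exact h.symm
          · intro e v w hv hw hv' hw'
            have h1 : v ≠ w0 := by rintro rfl; exact hw0 hv'
            have h2 : w ≠ w0 := by rintro rfl; exact hw0 hw'
            rw [Function.update_of_ne h1, Function.update_of_ne h2, MonoidHom.comp_assoc,
              MonoidHom.comp_assoc, hcom e v w hv hw hv' hw']
          · have h1 : v0 ≠ w0 := hadj.ne
            rw [Function.update_of_ne h1, Function.update_self, MonoidHom.comp_assoc]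
            exact hag)
    obtain ⟨Ω, hΩ, hΩne, Θ, hΘ, hcom⟩ := this
    exact ⟨Ω, hΩ, hΩne, Θ, fun v => hΘ v (Finset.mem_univ _), fun e v w hv hw =>
      hcom e v w hv hw (Finset.mem_univ _) (Finset.mem_univ _)⟩
  obtain ⟨F, hF⟩ := hlift Ω (fun v => (Θ v).comp (base (M v) (θ v))) (by
    intro e v w hv hw
    rw [MonoidHom.comp_assoc, MonoidHom.comp_assoc]
    exact hcom e v w hv hw)
  -- stabilisers in the vertex groups
  have hvert : ∀ v y, (St F y ⊓ (j v).range).FG := by
    intro v y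
    obtain ⟨q, hq⟩ := (hΘ v).fix y
    have h1 : St F y ⊓ (j v).range = (St (base (M v) (θ v)) q).map (j v) := by
      ext g
      constructor
      · rintro ⟨hg, x, rfl⟩
        refine ⟨x, ?_, rfl⟩
        have h2 : ap (F (j v x)) y = y := hg
        have h3 : F (j v x) = Θ v (base (M v) (θ v) x) := DFunLike.congr_fun (hF v) x
        rw [h3, hq] at h2
        exact h2
      · rintro ⟨x, hx, rfl⟩
        refine ⟨?_, x, rfl⟩
        have h2 : ap (base (M v) (θ v) x) q = q := hx
        show ap (F (j v x)) y = y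
        have h3 : F (j v x) = Θ v (base (M v) (θ v) x) := DFunLike.congr_fun (hF v) x
        rw [h3, hq]
        exact h2
    rw [h1]
    obtain ⟨T, hT, hTf⟩ := (Subgroup.fg_iff _).1 (base_St_fg (M v) (θ v) (hθfg v) q)
    rw [Subgroup.fg_iff]
    exact ⟨j v '' T, by rw [← MonoidHom.map_closure, hT], hTf.image _⟩
  have hall : ∀ y, (St F y ⊓ ⨆ v ∈ (Finset.univ : Finset V), (j v).range).FG := by
    refine tree_grow Γ hΓ (fun S => ∀ y, (St F y ⊓ ⨆ v ∈ S, (j v).range).FG) ?_ ?_
    · intro v y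
      have : (⨆ w ∈ ({v} : Finset V), (j w).range) = (j v).range := by simp
      rw [this]
      exact hvert v y
    · intro S v0 w0 hS hv0 hw0 hadj huniq y
      let e0 : Γ.edgeSet := ⟨s(v0, w0), (SimpleGraph.mem_edgeSet Γ).2 hadj⟩
      have hv0e : v0 ∈ e0.1 := Sym2.mem_mk_left _ _
      have hw0e : w0 ∈ e0.1 := Sym2.mem_mk_right _ _
      have h1 : (⨆ v ∈ insert w0 S, (j v).range) = (⨆ v ∈ S, (j v).range) ⊔ (j w0).range := by
        rw [Finset.iSup_insert, sup_comm]
      rw [h1]
      let C : Subgroup P := ((j v0).comp (ι e0 v0 hv0e)).range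
      have hC : C = ((j w0).comp (ι e0 w0 hw0e)).range := by
        show ((j v0).comp (ι e0 v0 hv0e)).range = _
        rw [hcomp e0 v0 w0 hv0e hw0e]
      have hgd : Good (z e0) ((Θ v0).comp ((base (M v0) (θ v0)).comp (ι e0 v0 hv0e))) :=
        (hgood e0 v0 hv0e).comp (hΘ v0)
      obtain ⟨D, hD, hDo⟩ := hgd.orbits
      refine stab_fg F _ _ C ?_ ?_ D hD ?_ hS (hvert w0) y
      · refine le_trans ?_ (le_iSup₂_of_le v0 hv0 le_rfl)
        rintro _ ⟨x, rfl⟩
        exact ⟨ι e0 v0 hv0e x, rfl⟩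
      · rw [hC]
        rintro _ ⟨x, rfl⟩
        exact ⟨ι e0 w0 hw0e x, rfl⟩
      · intro p
        obtain ⟨d, hd, k, hk⟩ := hDo p
        refine ⟨d, hd, j v0 (ι e0 v0 hv0e (z e0 ^ k)), ⟨_, rfl⟩, ?_⟩
        rw [hk]
        have h3 : F (j v0 (ι e0 v0 hv0e (z e0 ^ k))) =
          Θ v0 (base (M v0) (θ v0) (ι e0 v0 hv0e (z e0 ^ k))) := DFunLike.congr_fun (hF v0) _
        rw [h3]
        rfl
  have hSt : ∀ y, (St F y).FG := by
    intro y
    have h1 := hall y
    have h2 : (⨆ v ∈ (Finset.univ : Finset V), (j v).range) = ⊤ := by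
      rw [← hgen]; simp
    rw [h2, inf_top_eq] at h1
    exact h1
  -- the end
  obtain ⟨v⟩ := hΓ.connected.nonempty
  obtain ⟨ω⟩ := hΩne
  obtain ⟨q, l, hl, hq⟩ := hΘ v (ω, 0)
  obtain ⟨g, c', hc', hg⟩ := base_nontriv (M v) (θ v) (hθne v) q
  refine vfibered_of_action F ω (hSt _) (j v g) (l * c') (mul_ne_zero hl hc') ?_
  have h3 : F (j v g) = Θ v (base (M v) (θ v) g) := DFunLike.congr_fun (hF v) _
  rw [h3]
  exact (hq _).2 c' hg

end core

end Pool.Agent.X260.Tree
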