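import Mathlib
set_option autoImplicit false

/-! Raising the derived length with unrestricted wreath products by the integers, and a unimodular
equation without solutions of the same derived length. -/

namespace Pool.Agent.X260.Wr

open RegularWreathProduct
open scoped commutatorElement

variable {G : Type} [Group G]

abbrev ZZ := Multiplicative ℤ

/-- `δ x`: the function which is `x` at `0` and `1` elsewhere. -/
def delta : G →* RegularWreathProduct G ZZ where
  toFun x := ⟨fun q => if Multiplicative.toAdd q = 0 then x else 1, 1⟩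
  map_one' := by
    ext q
    · simp
    · rfl
  map_mul' x y := by
    ext q
    · simp only [mul_left, Pi.mul_apply, inv_one, one_mul]
      split_ifs <;> simp
    · simp

theorem delta_inj : Function.Injective (delta (G := G)) := by
  intro x y h
  have := congrFun (congrArg RegularWreathProduct.left h) (Multiplicative.ofAdd 0)
  simpa [delta] using this

theorem delta_comm (x : G) : delta x ∈ derivedSeries (RegularWreathProduct G ZZ) 1 := by
  rw [derivedSeries_succ, derivedSeries_zero]
  have : delta x = ⁅(⟨fun q => if 0 ≤ Multiplicative.toAdd q then x else 1, 1⟩ :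
      RegularWreathProduct G ZZ), (⟨1, Multiplicative.ofAdd 1⟩ : RegularWreathProduct G ZZ)⁆ := by
    ext q
    · simp only [delta, commutatorElement_def, MonoidHom.coe_mk, OneHom.coe_mk, mul_left, inv_left,
        mul_right, inv_right, Pi.mul_apply, Pi.one_apply, Pi.inv_apply, one_mul, mul_one, inv_one]
      simp only [toAdd_mul, toAdd_inv, toAdd_ofAdd, inv_one, one_mul, mul_one, inv_inv]
      by_cases h0 : Multiplicative.toAdd q = 0
      · simp [h0]
      · by_cases h1 : 0 ≤ Multiplicative.toAdd q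
        · have h2 : 0 ≤ -1 + Multiplicative.toAdd q := by omega
          simp [h0, h1, h2]
        · have h2 : ¬ 0 ≤ -1 + Multiplicative.toAdd q := by omega
          simp [h0, h1, h2]
    · simp [delta, commutatorElement_def]
  rw [this]
  exact Subgroup.commutator_mem_commutator (Subgroup.mem_top _) (Subgroup.mem_top _)

theorem delta_der (n : ℕ) : (derivedSeries G n).map delta ≤
    derivedSeries (RegularWreathProduct G ZZ) (n + 1) := by
  induction n with
  | zero =>
    rintro _ ⟨x, _, rfl⟩
    exact delta_comm x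
  | succ n ih =>
    rw [derivedSeries_succ, Subgroup.map_commutator, derivedSeries_succ]
    exact Subgroup.commutator_mono ih ih

/-- functions with values in a subgroup -/
def base (S : Subgroup G) : Subgroup (RegularWreathProduct G ZZ) where
  carrier := {w | w.right = 1 ∧ ∀ q, w.left q ∈ S}
  one_mem' := ⟨rfl, fun _ => S.one_mem⟩
  mul_mem' := by
    rintro a b ⟨h1, h2⟩ ⟨h3, h4⟩
    refine ⟨by simp [h1, h3], fun q => ?_⟩
    simp only [mul_left, Pi.mul_apply]
    exact S.mul_mem (h2 _) (h4 _)
  inv_mem' := by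
    rintro a ⟨h1, h2⟩
    refine ⟨by simp [h1], fun q => ?_⟩
    simp only [inv_left, Pi.inv_apply]
    exact S.inv_mem (h2 _)

theorem base_der (n : ℕ) : derivedSeries (RegularWreathProduct G ZZ) (n + 1) ≤
    base (derivedSeries G n) := by
  induction n with
  | zero =>
    rw [derivedSeries_succ, derivedSeries_zero, Subgroup.commutator_le]
    intro a _ b _
    refine ⟨?_, fun q => by rw [derivedSeries_zero]; exact Subgroup.mem_top _⟩
    simp [commutatorElement_def, mul_comm]
  | succ n ih =>
    rw [derivedSeries_succ, Subgroup.commutator_le]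
    intro a ha b hb
    obtain ⟨h1, h2⟩ := ih ha
    obtain ⟨h3, h4⟩ := ih hb
    refine ⟨by simp [commutatorElement_def, h1, h3], fun q => ?_⟩
    have : ⁅a, b⁆.left q = ⁅a.left q, b.left q⁆ := by
      simp [commutatorElement_def, h1, h3]
    rw [this, derivedSeries_succ]
    exact Subgroup.commutator_mem_commutator (h2 q) (h4 q)

/-- the data for the equation -/
structure Dat (G : Type) [Group G] (d : ℕ) (g c : G) : Prop where
  der : derivedSeries G (d + 2) = ⊥
  hg : g ∈ derivedSeries G d
  hc : c ∈ derivedSeries G (d + 1)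
  g6 : g ^ 6 = 1
  c7 : c ^ 7 = 1
  c1 : c ≠ 1
  gc : g⁻¹ * c * g = c ^ 5

theorem Dat.step {d : ℕ} {g c : G} (h : Dat G d g c) :
    Dat (RegularWreathProduct G ZZ) (d + 1) (delta g) (delta c) where
  der := by
    rw [eq_bot_iff]
    intro w hw
    obtain ⟨h1, h2⟩ := base_der (d + 2) hw
    rw [Subgroup.mem_bot]
    ext q
    · have := h2 q
      rw [h.der, Subgroup.mem_bot] at this
      exact this
    · exact h1
  hg := delta_der d ⟨g, h.hg, rfl⟩
  hc := delta_der (d + 1) ⟨c, h.hc, rfl⟩
  g6 := by rw [← map_pow, h.g6, map_one]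
  c7 := by rw [← map_pow, h.c7, map_one]
  c1 := fun e => h.c1 (delta_inj (by rw [e, map_one]))
  gc := by rw [← map_inv, ← map_mul, ← map_mul, h.gc, map_pow]

theorem exists_dat {g c : G} (h : Dat G 0 g c) (d : ℕ) :
    ∃ (K : Type) (_ : Group K) (g c : K), Dat K d g c := by
  induction d with
  | zero => exact ⟨G, inferInstance, g, c, h⟩
  | succ d ih =>
    obtain ⟨K, _, g, c, h⟩ := ih
    exact ⟨_, inferInstance, _, _, h.step⟩

/-! ### no solution -/

theorem alg_add {A : Type*} [AddCommGroup A] (k : A) (t : ℕ → A)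
    (key : ∀ i : ℕ, (5 ^ i) • k = t i - t (i + 1) + t (i + 2)) (t6 : t 6 = t 0)
    (k7 : 7 • k = 0) : k = 0 := by
  have k0 := key 0
  have k1 := key 1
  have k3 := key 3
  have k4 := key 4
  norm_num at k0 k1 k3 k4
  rw [t6] at k4
  have h1 : k + 5 • k - 125 • k - 625 • k = 0 := by
    rw [k1, k3, k4]
    nth_rewrite 1 [k0]
    abel
  have h2 : k = 319 • (7 • k) + 3 • (k + 5 • k - 125 • k - 625 • k) := by
    module
  rw [h1, k7, smul_zero, smul_zero, add_zero] at h2
  exact h2

theorem alg_mul {A : Type*} [CommGroup A] (k : A) (t : ℕ → A)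
    (key : ∀ i : ℕ, k ^ (5 ^ i) = t i * (t (i + 1))⁻¹ * t (i + 2)) (t6 : t 6 = t 0)
    (k7 : k ^ 7 = 1) : k = 1 :=
  alg_add (A := Additive A) (Additive.ofMul k) (fun i => Additive.ofMul (t i))
    (fun i => by
      rw [sub_eq_add_neg]
      exact key i) t6 k7

section nosol
universe u
variable {H : Type u} [Group H]

theorem no_sol {d : ℕ} (hH : derivedSeries H (d + 2) = ⊥) {g c x : H}
    (hg : g ∈ derivedSeries H d) (hc : c ∈ derivedSeries H (d + 1)) (g6 : g ^ 6 = 1)
    (c7 : c ^ 7 = 1) (gc : g⁻¹ * c * g = c ^ 5)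
    (hx : x * (g⁻¹ * x⁻¹ * g) * ((g ^ 2)⁻¹ * x * g ^ 2) = c) : c = 1 := by
  have step : ∀ i, i ≤ d + 1 → x ∈ derivedSeries H i := by
    intro i
    induction i with
    | zero => intro _; rw [derivedSeries_zero]; exact Subgroup.mem_top _
    | succ i ih =>
      intro hi
      have hxi := ih (by omega)
      have hgi : g ∈ derivedSeries H i := derivedSeries_antitone H (by omega) hg
      have hci : c ∈ derivedSeries H (i + 1) := derivedSeries_antitone H (by omega) hc
      have e : x = ⁅x, g⁻¹⁆⁻¹ * c * ⁅x⁻¹, (g ^ 2)⁻¹⁆⁻¹ := by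
        rw [← hx]
        simp only [commutatorElement_def]
        group
      rw [e]
      have h1 : ⁅x, g⁻¹⁆ ∈ derivedSeries H (i + 1) := by
        rw [derivedSeries_succ]
        exact Subgroup.commutator_mem_commutator hxi (inv_mem hgi)
      have h2 : ⁅x⁻¹, (g ^ 2)⁻¹⁆ ∈ derivedSeries H (i + 1) := by
        rw [derivedSeries_succ]
        exact Subgroup.commutator_mem_commutator (inv_mem hxi) (inv_mem (pow_mem hgi 2))
      exact mul_mem (mul_mem (inv_mem h1) hci) (inv_mem h2)
  have hxA := step (d + 1) le_rfl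
  have hcomm : ∀ a ∈ derivedSeries H (d + 1), ∀ b ∈ derivedSeries H (d + 1), a * b = b * a := by
    intro a ha b hb
    have : ⁅a, b⁆ ∈ derivedSeries H (d + 2) := by
      rw [derivedSeries_succ]
      exact Subgroup.commutator_mem_commutator ha hb
    rw [hH, Subgroup.mem_bot] at this
    exact commutatorElement_eq_one_iff_mul_comm.1 this
  have hN : (derivedSeries H (d + 1)).Normal := derivedSeries_normal _ _
  have hT : ∀ (i : ℕ) (y : H), y ∈ derivedSeries H (d + 1) →
      (g ^ i)⁻¹ * y * g ^ i ∈ derivedSeries H (d + 1) := by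
    intro i y hy
    have := hN.conj_mem y hy (g ^ i)⁻¹
    rwa [inv_inv] at this
  have conj : ∀ i : ℕ, (g ^ i)⁻¹ * c * g ^ i =
      ((g ^ i)⁻¹ * x * g ^ i) * ((g ^ (i + 1))⁻¹ * x * g ^ (i + 1))⁻¹ *
        ((g ^ (i + 2))⁻¹ * x * g ^ (i + 2)) := by
    intro i
    conv_lhs => rw [← hx]
    group
  have cpow : ∀ i : ℕ, (g ^ i)⁻¹ * c * g ^ i = c ^ (5 ^ i) := by
    intro i
    induction i with
    | zero => simp
    | succ i ih =>
      have : (g ^ (i + 1))⁻¹ * c * g ^ (i + 1) = g⁻¹ * ((g ^ i)⁻¹ * c * g ^ i) * g := by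
        rw [pow_succ]; group
      rw [this, ih]
      have h3 : g⁻¹ * c ^ 5 ^ i * g = (g⁻¹ * c * g) ^ 5 ^ i := by
        have := conj_pow (i := 5 ^ i) (a := g⁻¹) (b := c)
        rw [inv_inv] at this
        exact this.symm
      rw [h3, gc, ← pow_mul, pow_succ, mul_comm]
  have fin := @alg_mul (derivedSeries H (d + 1))
    { (inferInstance : Group (derivedSeries H (d + 1))) with
      mul_comm := fun a b => Subtype.ext (hcomm a a.2 b b.2) } ⟨c, hc⟩ (fun i => ⟨_, hT i x hxA⟩)
    (fun i => Subtype.ext (by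
      show c ^ (5 ^ i) = ((g ^ i)⁻¹ * x * g ^ i) * ((g ^ (i + 1))⁻¹ * x * g ^ (i + 1))⁻¹ *
        ((g ^ (i + 2))⁻¹ * x * g ^ (i + 2))
      rw [← cpow, conj]))
    (Subtype.ext (by
      show (g ^ 6)⁻¹ * x * g ^ 6 = (g ^ 0)⁻¹ * x * g ^ 0
      rw [g6]; simp))
    (Subtype.ext c7)
  exact congrArg Subtype.val fin

end nosol

end Pool.Agent.X260.Wr
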