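import Mathlib
import Pool.Agent.Helper270.RE
set_option autoImplicit false
set_option linter.unusedSimpArgs false
set_option linter.unnecessarySeqFocus false

/-! The representation of Helper270 with the complex numbers replaced by an arbitrary field. -/

namespace Pool.Agent.X260.QF
open Pool.Agent.H270.Gau (Af LamU LamU_of sub3 sub3_single Fr xx tvA tvA_of tvh tvh_of)
open H270R (W FB GW pA pB pA_apply pB_apply pA_inv pB_inv phi phi_true phi_false phi_strong dt Af_pow_u
  dt_pA dt_pB dt_pA' dt_pB' desc_pos desc_neg PV Pres J L th J_PV PV_comp PV_id Pres_comp Pres_inv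
  Theta Theta_spec dt_self dt_add pow_transv lam lam_zero lam_ne even_pow tau tau_apply tau_L tau_pres
  DD linear_dt PV_tau cc)

variable {K : Type} [Field K]

theorem Af_pow_one {a : Af K} {k : ℕ} (hk : a.u ^ k = 1) (h1 : a.u ≠ 1) : a ^ k = 1 := by
  have h2 : (1 : K) - (a.u : K) ≠ 0 := by
    intro h
    apply h1
    apply Units.ext
    rw [Units.val_one]
    linear_combination -h
  obtain ⟨p, h3⟩ : ∃ p : Fin 3 → K, a.v = p - (a.u : K) • p := by
    refine ⟨((1 : K) - (a.u : K))⁻¹ • a.v, ?_⟩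
    have : ∀ p : Fin 3 → K, p - (a.u : K) • p = ((1 : K) - (a.u : K)) • p := by
      intro p; rw [sub_smul, one_smul]
    rw [this, smul_smul, mul_inv_cancel₀ h2, one_smul]
  have h4 : ∀ j : ℕ, (a ^ j).v = p - ((a.u ^ j : Kˣ) : K) • p := by
    intro j
    induction j with
    | zero => simp
    | succ j ih =>
      rw [pow_succ, Af.mul_v, ih, Af_pow_u, pow_succ, Units.val_mul, h3, smul_sub, mul_smul]
      exact sub_add_sub_cancel p _ _
  apply Af.ext
  · rw [Af_pow_u, hk]; rfl
  · rw [h4, hk]; simp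

section
variable (ζ : Kˣ)

def aA : Af K := ⟨ζ, 0⟩
def aB : Af K := ⟨ζ ^ 2, Pi.single 0 1⟩

def psi : FB →* Af K := FreeGroup.lift (fun b => if b then aA ζ else aB ζ)

theorem psi_true : psi ζ (FreeGroup.of true) = aA ζ := by simp [psi]
theorem psi_false : psi ζ (FreeGroup.of false) = aB ζ := by simp [psi]

theorem psi_cc : psi ζ cc = ⟨1, Pi.single 0 ((ζ : K) - 1)⟩ := by
  rw [cc, map_mul, map_mul, map_mul, map_inv, map_inv, psi_true, psi_false]
  apply Af.ext
  · simp [aA, aB]
  · simp only [Af.mul_v, Af.mul_u, Af.inv_v, Af.inv_u, aA, aB, smul_zero, neg_zero, add_zero, zero_add]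
    funext i
    by_cases h : i = 0
    · subst h
      simp
      ring
    · simp [h]

theorem psi_cc_pow (k : ℕ) : psi ζ (cc ^ k) = ⟨1, Pi.single 0 (k * ((ζ : K) - 1))⟩ := by
  induction k with
  | zero => apply Af.ext <;> simp
  | succ k ih =>
    rw [pow_succ, map_mul, ih, psi_cc]
    apply Af.ext
    · simp
    · rw [Af.mul_v]
      simp only [Units.val_one, one_smul]
      rw [← Pi.single_add]
      congr 1
      push_cast; ring

theorem psi_cc_ne (hζ : ζ ≠ 1) {k : ℕ} (h : psi ζ (cc ^ k) = 1) : (k : K) = 0 := by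
  rw [psi_cc_pow] at h
  have h1 := congrFun (congrArg Af.v h) 0
  simp only [Pi.single_eq_same, Af.one_v, Pi.zero_apply, mul_eq_zero] at h1
  rcases h1 with h1 | h1
  · exact h1
  · exfalso
    apply hζ
    apply Units.ext
    rw [Units.val_one]
    linear_combination h1

/-! ### parabolics -/

variable (k : ℕ)

/-- the square of the transvection along `v` is `±φ(u)` with `ψ(u)^k = 1` -/
def Good (v : W) : Prop := ∃ u : FB, (psi ζ u) ^ k = 1 ∧ ∃ ε : ℤ, ε * ε = 1 ∧
  ∀ x : W, x + (2 * dt v x) • v = ε • phi u x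

variable {ζ k}

theorem Good.move {v : W} (h : Good ζ k v) (w : FB) (hdt : ∀ x, dt (phi w v) (phi w x) = dt v x) :
    Good ζ k (phi w v) := by
  obtain ⟨u, h1, ε, h2, h3⟩ := h
  refine ⟨w * u * w⁻¹, ?_, ε, h2, ?_⟩
  · rw [map_mul, map_mul, map_inv, conj_pow, h1]
    simp
  · intro x
    have h4 : phi w (phi w⁻¹ x) = x := by
      rw [← LinearEquiv.mul_apply, ← map_mul, mul_inv_cancel, map_one]; rfl
    have h5 := h3 (phi w⁻¹ x)
    have h6 := congrArg (phi w) h5
    rw [map_add, map_smul, map_smul, h4, ← hdt, h4] at h6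
    rw [h6, map_mul, map_mul]
    rfl

theorem Good.mA {v : W} (h : Good ζ k v) : Good ζ k (v.1 + 2 * v.2, v.2) := by
  have := h.move (FreeGroup.of true) (by intro x; rw [phi_true]; exact dt_pA v x)
  rwa [phi_true] at this

theorem Good.mB {v : W} (h : Good ζ k v) : Good ζ k (v.1, v.2 + 2 * v.1) := by
  have := h.move (FreeGroup.of false) (by intro x; rw [phi_false]; exact dt_pB v x)
  rwa [phi_false] at this

theorem Good.mA' {v : W} (h : Good ζ k v) : Good ζ k (v.1 - 2 * v.2, v.2) := by
  have := h.move (FreeGroup.of true)⁻¹ (by intro x; rw [map_inv, phi_true]; exact dt_pA' v x)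
  rw [map_inv, phi_true] at this
  exact this

theorem Good.mB' {v : W} (h : Good ζ k v) : Good ζ k (v.1, v.2 - 2 * v.1) := by
  have := h.move (FreeGroup.of false)⁻¹ (by intro x; rw [map_inv, phi_false]; exact dt_pB' v x)
  rw [map_inv, phi_false] at this
  exact this

theorem Good.neg {v : W} (h : Good ζ k v) : Good ζ k (-v) := by
  obtain ⟨u, h1, ε, h2, h3⟩ := h
  refine ⟨u, h1, ε, h2, ?_⟩
  intro x
  rw [← h3 x]
  congr 1
  ext <;> simp [dt] <;> ring

section base
variable (hk : ζ ^ k = 1) (hz1 : ζ ≠ 1) (hz2 : ζ ^ 2 ≠ 1)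
include hk hz1

theorem good_10 : Good ζ k (1, 0) := by
  refine ⟨FreeGroup.of true, ?_, 1, by norm_num, ?_⟩
  · rw [psi_true]
    exact Af_pow_one (by simpa [aA] using hk) (by simpa [aA] using hz1)
  · intro x
    rw [phi_true, pA_apply]
    ext <;> simp [dt]

omit hz1 in
include hz2 in
theorem good_01 : Good ζ k (0, 1) := by
  refine ⟨(FreeGroup.of false)⁻¹, ?_, 1, by norm_num, ?_⟩
  · rw [map_inv, psi_false, inv_pow, inv_eq_one]
    apply Af_pow_one
    · show (ζ ^ 2) ^ k = 1
      rw [← pow_mul, mul_comm, pow_mul, hk, one_pow]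
    · exact hz2
  · intro x
    rw [map_inv, phi_false, pB_inv]
    ext <;> simp [dt]; ring

theorem good_11 : Good ζ k (1, 1) := by
  refine ⟨FreeGroup.of false * (FreeGroup.of true)⁻¹, ?_, -1, by norm_num, ?_⟩
  · rw [map_mul, map_inv, psi_false, psi_true]
    have e : (aB ζ * (aA ζ)⁻¹).u = ζ := by
      simp [aA, aB, pow_two]
    apply Af_pow_one
    · rw [e, hk]
    · rw [e]; exact hz1
  · intro x
    rw [map_mul, map_inv, phi_false, phi_true]
    show _ = -1 • pB ((pA⁻¹ : GW) x)
    rw [pA_inv, pB_apply]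
    ext <;> simp [dt] <;> ring

include hz2

theorem good_all (n : ℕ) : ∀ v : W, v.1.natAbs + v.2.natAbs ≤ n → Int.gcd v.1 v.2 = 1 → Good ζ k v := by
  induction n with
  | zero =>
    intro v hv hg
    have h1 : v.1 = 0 := by omega
    have h2 : v.2 = 0 := by omega
    rw [h1, h2] at hg
    simp at hg
  | succ n ih =>
    rintro ⟨x, y⟩ hv hg
    simp only at hv hg
    by_cases hy : y = 0
    · subst hy
      have hx : x.natAbs = 1 := by simpa using hg
      rcases Int.natAbs_eq x with h | h
      · rw [hx] at h; rw [h]; exact good_10 hk hz1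
      · rw [hx] at h; rw [h]
        have := (good_10 (ζ := ζ) (k := k) hk hz1).neg
        simpa using this
    by_cases hx : x = 0
    · subst hx
      have hy' : y.natAbs = 1 := by simpa using hg
      rcases Int.natAbs_eq y with h | h
      · rw [hy'] at h; rw [h]; exact good_01 hk hz2
      · rw [hy'] at h; rw [h]
        have := (good_01 (ζ := ζ) (k := k) hk hz2).neg
        simpa using this
    rcases lt_trichotomy x.natAbs y.natAbs with h | h | h
    · -- |x| < |y|
      rcases lt_or_ge 0 (x * y) with hs | hs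
      · have hg' : Int.gcd x (y - 2 * x) = 1 := by
          rw [Int.gcd_sub_mul_right_right]; exact hg
        have hlt : (y - 2 * x).natAbs < y.natAbs := desc_pos hx h hs
        have := (ih (x, y - 2 * x) (by simp only; omega) hg').mB
        simpa using this
      · have hg' : Int.gcd x (y + 2 * x) = 1 := by
          rw [Int.gcd_add_mul_right_right]; exact hg
        have hlt : (y + 2 * x).natAbs < y.natAbs := desc_neg hx h (lt_of_le_of_ne hs (mul_ne_zero hx hy))
        have := (ih (x, y + 2 * x) (by simp only; omega) hg').mB'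
        simpa using this
    · -- |x| = |y| 
      have hx1 : x.natAbs = 1 := by
        have : Int.gcd x y = x.natAbs := by
          rw [Int.gcd, ← h, Nat.gcd_self]
        omega
      have hy1 : y.natAbs = 1 := by omega
      have hx2 : x = 1 ∨ x = -1 := by omega
      have hy2 : y = 1 ∨ y = -1 := by omega
      have g11 := good_11 (ζ := ζ) (k := k) hk hz1
      have gm : Good ζ k (-1, 1) := by simpa using g11.mA'
      rcases hx2 with rfl | rfl <;> rcases hy2 with rfl | rfl
      · exact g11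
      · simpa using gm.neg
      · exact gm
      · simpa using g11.neg
    · rcases lt_or_ge 0 (x * y) with hs | hs
      · have hg' : Int.gcd (x - 2 * y) y = 1 := by
          rw [Int.gcd_sub_mul_right_left]; exact hg
        have hlt : (x - 2 * y).natAbs < x.natAbs := desc_pos hy h (by rw [mul_comm]; exact hs)
        have := (ih (x - 2 * y, y) (by simp only; omega) hg').mA
        simpa using this
      · have hg' : Int.gcd (x + 2 * y) y = 1 := by
          rw [Int.gcd_add_mul_right_left]; exact hg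
        have hlt : (x + 2 * y).natAbs < x.natAbs := desc_neg hy h (by rw [mul_comm]; exact lt_of_le_of_ne hs (mul_ne_zero hx hy))
        have := (ih (x + 2 * y, y) (by simp only; omega) hg').mA'
        simpa using this

end base

end

section
variable (ζ : Kˣ)

def SS (f : W → W) : Prop := ∃ u : FB, psi ζ u = 1 ∧ ∃ ε : ℤ, ε * ε = 1 ∧ ∀ x, f x = ε • phi u x

variable {ζ}

theorem SS.comp {f g : W → W} (hf : SS ζ f) (hg : SS ζ g) : SS ζ (fun x => f (g x)) := by
  obtain ⟨u, h1, ε, h2, h3⟩ := hf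
  obtain ⟨u', h1', ε', h2', h3'⟩ := hg
  refine ⟨u * u', by rw [map_mul, h1, h1', one_mul], ε * ε', by linear_combination h2 * ε' * ε' + h2', ?_⟩
  intro x
  show f (g x) = _
  rw [h3', h3, map_smul, map_mul, smul_smul]
  rfl

theorem SS.id : SS ζ (fun x => x) := ⟨1, map_one _, 1, by norm_num, fun x => by simp⟩

def PP (ζ : Kˣ) : Subgroup (MulAut Fr) where
  carrier := {σ | Pres (σ : Fr →* Fr) ∧ SS ζ (PV (σ : Fr →* Fr))}
  one_mem' := by
    refine ⟨fun _ => rfl, ?_⟩
    have : PV ((1 : MulAut Fr) : Fr →* Fr) = fun x => x := by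
      funext x; exact PV_id x
    rw [this]; exact SS.id
  mul_mem' := by
    rintro σ τ ⟨h1, h2⟩ ⟨h3, h4⟩
    refine ⟨Pres_comp h1 h3, ?_⟩
    have : PV ((σ * τ : MulAut Fr) : Fr →* Fr) = fun x => PV (σ : Fr →* Fr) (PV (τ : Fr →* Fr) x) := by
      funext x; exact PV_comp h1 h3 x
    rw [this]; exact h2.comp h4
  inv_mem' := by
    rintro σ ⟨h1, u, h2, ε, h3, h4⟩
    refine ⟨Pres_inv h1, u⁻¹, by rw [map_inv, h2, inv_one], ε, h3, ?_⟩
    intro x
    have h5 : ∀ y, PV ((σ⁻¹ : MulAut Fr) : Fr →* Fr) (PV (σ : Fr →* Fr) y) = y := by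
      intro y
      rw [← PV_comp (Pres_inv h1) h1]
      have : ((σ⁻¹ : MulAut Fr) : Fr →* Fr).comp (σ : Fr →* Fr) = MonoidHom.id Fr := by
        ext g
        show (σ⁻¹ : MulAut Fr) (σ _) = _
        rw [MulAut.inv_apply_self]; rfl
      rw [this, PV_id]
    have h6 := h5 (ε • phi u⁻¹ x)
    rw [h4, map_smul, smul_smul, h3, one_smul, ← LinearEquiv.mul_apply, ← map_mul,
      mul_inv_cancel, map_one] at h6
    exact h6

end

section
variable {ζ : Kˣ} {k : ℕ}

theorem Good.sign {v : W} (h : Good ζ k v) {s : ℤ} (hs : s = 1 ∨ s = -1) :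
    ∃ u : FB, (psi ζ u) ^ k = 1 ∧ ∃ ε : ℤ, ε * ε = 1 ∧
      ∀ x : W, x + (2 * s * dt v x) • v = ε • phi u x := by
  obtain ⟨u, h1, ε, h2, h3⟩ := h
  rcases hs with rfl | rfl
  · refine ⟨u, h1, ε, h2, ?_⟩
    intro x
    rw [← h3 x, mul_one]
  · refine ⟨u⁻¹, by rw [map_inv, inv_pow, h1, inv_one], ε, h2, ?_⟩
    intro x
    have h4 := h3 (x + (2 * -1 * dt v x) • v)
    rw [dt_add, add_assoc, ← add_smul] at h4
    have h5 : (2 * -1 * dt v x + 2 * dt v x) = 0 := by ring
    rw [h5, zero_smul, add_zero] at h4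
    have h6 : phi u (x + (2 * -1 * dt v x) • v) = ε • x := by
      have := congrArg (fun z => ε • z) h4
      simp only [smul_smul, h2, one_smul] at this
      exact this.symm
    have h7 : phi u⁻¹ (phi u (x + (2 * -1 * dt v x) • v)) = x + (2 * -1 * dt v x) • v := by
      rw [← LinearEquiv.mul_apply, ← map_mul, inv_mul_cancel, map_one]; rfl
    rw [h6, map_smul] at h7
    exact h7.symm

theorem SS_transv {v : W} (h : Good ζ k v) (n : ℤ) :
    SS ζ (fun x => x + (2 * (k * n) * dt v x) • v) := by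
  obtain ⟨s, hs, hn⟩ : ∃ s : ℤ, (s = 1 ∨ s = -1) ∧ n = s * n.natAbs := by
    rcases Int.natAbs_eq n with h | h
    · exact ⟨1, Or.inl rfl, by rw [one_mul]; exact h⟩
    · exact ⟨-1, Or.inr rfl, by rw [neg_one_mul]; exact h⟩
  obtain ⟨u, h1, ε, h2, h3⟩ := h.sign hs
  refine ⟨u ^ (k * n.natAbs), by rw [map_pow, pow_mul, h1, one_pow], ε ^ (k * n.natAbs), ?_, ?_⟩
  · rw [← mul_pow, h2, one_pow]
  · intro x
    rw [← pow_transv h3 (k * n.natAbs) x]
    have : (k : ℤ) * n = s * ((k * n.natAbs : ℕ) : ℤ) := by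
      conv_lhs => rw [hn]
      push_cast; ring
    rw [this]

end

section
variable {ζ : Kˣ} {k : ℕ}

theorem tau_SS (hk : ζ ^ k = 1) (hz1 : ζ ≠ 1) (hz2 : ζ ^ 2 ≠ 1) (hk0 : k ≠ 0) (a : MulAut Fr) :
    SS ζ (PV (tau a k : Fr →* Fr)) := by
  set w : Fin 3 → ℤ := if th (a (xx 1)) = 1 then L (a (xx 1)) else 0 with hw
  have hP := fun x => PV_tau (k := k) a x w hw
  by_cases hz : ((w 0, w 1) : W) = 0
  · have : PV (tau a k : Fr →* Fr) = fun x => x := by
      funext x
      rw [hP, hz, smul_zero, add_zero]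
    rw [this]; exact SS.id
  · have ht : th (a (xx 1)) = 1 := by
      by_contra hc
      apply hz
      rw [hw, if_neg hc]; rfl
    rw [if_pos ht] at hw
    have hJ : J (a (xx 1)) = (w 0, w 1) := by rw [hw]; rfl
    have hfix : tau a k (a (xx 1)) = a (xx 1) := by
      rw [tau_apply, MulAut.inv_apply_self, lam_ne _ (by decide)]
    have h1 : J (tau a k (a (xx 1))) = PV (tau a k : Fr →* Fr) (J (a (xx 1))) :=
      J_PV (tau_pres a k) ht
    rw [hfix, hP, hJ] at h1
    set v : W := (w 0, w 1) with hv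
    have h2 : (2 * k * (v.1 * DD a (xx 0) + v.2 * DD a (xx 1)) : ℤ) • v = 0 := by
      have := h1.symm
      simpa using this
    have h3 : v.1 * DD a (xx 0) + v.2 * DD a (xx 1) = 0 := by
      rcases smul_eq_zero.1 h2 with h | h
      · rcases mul_eq_zero.1 h with h | h
        · exfalso
          have : (k : ℤ) ≠ 0 := by exact_mod_cast hk0
          omega
        · exact h
      · exact absurd h hz
    -- make `v` primitive
    have hgpos : 0 < Int.gcd v.1 v.2 := by
      rw [Nat.pos_iff_ne_zero]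
      intro h
      rw [Int.gcd_eq_zero_iff] at h
      exact hz (Prod.ext h.1 h.2)
    obtain ⟨p, q, hpq, e1, e2⟩ : ∃ p q : ℤ, Int.gcd p q = 1 ∧ v.1 = p * (Int.gcd v.1 v.2) ∧
        v.2 = q * (Int.gcd v.1 v.2) := Int.exists_gcd_one hgpos
    set d : ℤ := (Int.gcd v.1 v.2 : ℤ) with hd
    have hd0 : d ≠ 0 := by rw [hd]; exact_mod_cast hgpos.ne'
    have h4 : (p, q).1 * DD a (xx 0) + (p, q).2 * DD a (xx 1) = 0 := by
      have : d * (p * DD a (xx 0) + q * DD a (xx 1)) = 0 := by
        rw [e1, e2] at h3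
        linear_combination h3
      rcases mul_eq_zero.1 this with h | h
      · exact absurd h hd0
      · exact h
    obtain ⟨c, hc⟩ := linear_dt (v := (p, q)) hpq h4
    have hgood : Good ζ k (p, q) := good_all hk hz1 hz2 (p.natAbs + q.natAbs) (p, q) le_rfl hpq
    have h5 := SS_transv hgood (c * d)
    have : PV (tau a k : Fr →* Fr) = fun x => x + (2 * (k * (c * d)) * dt (p, q) x) • ((p, q) : W) := by
      funext x
      rw [hP, hc]
      have e3 : v = d • ((p, q) : W) := by
        apply Prod.ext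
        · show v.1 = d * p; rw [e1]; ring
        · show v.2 = d * q; rw [e2]; ring
      rw [e3, smul_smul]
      congr 2
      ring
    rw [this]; exact h5

end


end Pool.Agent.X260.QF
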