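import Mathlib
import Pool.Agent.X260.QF
set_option autoImplicit false
set_option linter.unusedSimpArgs false
set_option linter.unnecessarySeqFocus false

/-! Sanov's theorem for the two parabolic matrices of level two, and finiteness of index. -/

namespace Pool.Agent.X260.QF
open Pool.Agent.H270.Gau (Af Fr xx)
open H270R (W FB GW pA pB pA_apply pB_apply pA_inv pB_inv phi phi_true phi_false phi_strong
  desc_pos desc_neg PV Pres J L th J_PV PV_comp PV_id Pres_comp Pres_inv Theta Theta_spec)

theorem phi_true_zpow (n : ℤ) (x : W) :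
    phi ((FreeGroup.of true) ^ n) x = (x.1 + 2 * n * x.2, x.2) := by
  induction n using Int.induction_on with
  | zero => simp
  | succ n ih =>
    rw [zpow_add_one]
    have e : (FreeGroup.of true : FB) ^ (n : ℤ) * FreeGroup.of true
        = FreeGroup.of true * FreeGroup.of true ^ (n : ℤ) := by
      rw [← zpow_add_one, ← zpow_one_add, add_comm]
    rw [e, map_mul, phi_true]
    show pA (phi _ x) = _
    rw [ih, pA_apply]
    ext
    · simp; ring
    · simp
  | pred n ih =>
    rw [zpow_sub_one]
    have e : (FreeGroup.of true : FB) ^ (-(n : ℤ)) * (FreeGroup.of true)⁻¹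
        = (FreeGroup.of true)⁻¹ * FreeGroup.of true ^ (-(n : ℤ)) := by
      rw [← zpow_sub_one, ← zpow_neg_one, ← zpow_add]
      congr 1; ring
    rw [e, map_mul, map_inv, phi_true]
    show (pA⁻¹ : GW) (phi _ x) = _
    rw [ih, pA_inv]
    ext
    · simp; ring
    · simp

/-- the linear map with the given matrix -/
def mt (a b c d : ℤ) (x : W) : W := (a * x.1 + b * x.2, c * x.1 + d * x.2)

theorem sanov (n : ℕ) : ∀ a b c d : ℤ, a.natAbs + c.natAbs ≤ n → a * d - b * c = 1 →
    a % 2 = 1 → b % 2 = 0 → c % 2 = 0 →
    ∃ u : FB, ∃ ε : ℤ, ε * ε = 1 ∧ ∀ x, mt a b c d x = ε • phi u x := by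
  induction n with
  | zero => intro a b c d h1 h2 h3; omega
  | succ n ih =>
    intro a b c d hn hdet ha hb hc
    have key : ∀ (v : FB) (a' b' c' d' : ℤ), (∀ x, mt a b c d x = phi v (mt a' b' c' d' x)) →
        (∃ u : FB, ∃ ε : ℤ, ε * ε = 1 ∧ ∀ x, mt a' b' c' d' x = ε • phi u x) →
        ∃ u : FB, ∃ ε : ℤ, ε * ε = 1 ∧ ∀ x, mt a b c d x = ε • phi u x := by
      rintro v a' b' c' d' h1 ⟨u, ε, h2, h3⟩
      refine ⟨v * u, ε, h2, fun x => ?_⟩
      rw [h1, h3, map_smul, map_mul]; rfl
    by_cases hc0 : c = 0
    · subst hc0
      have h1 : a * d = 1 := by linarith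
      have h2 : a = 1 ∨ a = -1 := Int.isUnit_iff.1 (IsUnit.of_mul_eq_one _ h1)
      have h3 : a * a = 1 := by rcases h2 with rfl | rfl <;> norm_num
      have h4 : d = a := by
        have : a * (d - a) = 0 := by rw [mul_sub, h1, h3, sub_self]
        rcases mul_eq_zero.1 this with h | h
        · rw [h] at h3; norm_num at h3
        · linarith
      subst h4
      refine ⟨(FreeGroup.of true) ^ (d * b / 2), d, h3, fun x => ?_⟩
      rw [phi_true_zpow]
      have h5 : 2 * (d * b / 2) = d * b := by
        apply Int.mul_ediv_cancel'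
        exact Dvd.dvd.mul_left (Int.dvd_of_emod_eq_zero hb) _
      rw [h5]
      ext
      · simp only [mt, Prod.smul_mk, smul_eq_mul]
        linear_combination (-b * x.2) * h3
      · simp [mt]
    · have ha0 : a ≠ 0 := by rintro rfl; omega
      rcases lt_trichotomy a.natAbs c.natAbs with h | h | h
      · rcases lt_or_ge 0 (a * c) with hs | hs
        · -- c - 2a
          have hlt := desc_pos ha0 h hs
          apply key (FreeGroup.of false) a b (c - 2 * a) (d - 2 * b)
          · intro x
            rw [phi_false, pB_apply]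
            ext <;> simp [mt]
            ring
          · exact ih _ _ _ _ (by omega) (by linear_combination hdet) ha hb (by omega)
        · have hlt := desc_neg ha0 h (lt_of_le_of_ne hs (mul_ne_zero ha0 hc0))
          apply key (FreeGroup.of false)⁻¹ a b (c + 2 * a) (d + 2 * b)
          · intro x
            rw [map_inv, phi_false, pB_inv]
            ext <;> simp [mt]
            ring
          · exact ih _ _ _ _ (by omega) (by linear_combination hdet) ha hb (by omega)
      · exfalso; omega
      · rcases lt_or_ge 0 (c * a) with hs | hs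
        · have hlt := desc_pos hc0 h hs
          apply key (FreeGroup.of true) (a - 2 * c) (b - 2 * d) c d
          · intro x
            rw [phi_true, pA_apply]
            ext <;> simp [mt]
            ring
          · exact ih _ _ _ _ (by omega) (by linear_combination hdet) (by omega) (by omega) hc
        · have hlt := desc_neg hc0 h (lt_of_le_of_ne hs (mul_ne_zero hc0 ha0))
          apply key (FreeGroup.of true)⁻¹ (a + 2 * c) (b + 2 * d) c d
          · intro x
            rw [map_inv, phi_true, pA_inv]
            ext <;> simp [mt]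
            ring
          · exact ih _ _ _ _ (by omega) (by linear_combination hdet) (by omega) (by omega) hc

/-! ### finite index -/

theorem finiteIndex_of_fun {G X : Type*} [Group G] [Finite X] (H : Subgroup G) (f : G → X)
    (hf : ∀ a b, f a = f b → a⁻¹ * b ∈ H) : H.FiniteIndex := by
  have : Finite (G ⧸ H) := by
    apply Finite.of_injective (fun q : G ⧸ H => f q.out)
    intro q1 q2 h
    have := hf _ _ h
    rw [← QuotientGroup.eq] at this
    simpa using this
  exact Subgroup.finiteIndex_of_finite_quotient

theorem finiteIndex_rel {G X : Type*} [Group G] [Finite X] (H M : Subgroup G) [hM : M.FiniteIndex]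
    (f : G → X) (hf : ∀ a b, a ∈ M → b ∈ M → f a = f b → a⁻¹ * b ∈ H) : H.FiniteIndex := by
  have h1 : ((H ⊓ M).subgroupOf M).FiniteIndex := by
    apply finiteIndex_of_fun _ (fun a : M => f a)
    intro a b h
    rw [Subgroup.mem_subgroupOf]
    exact ⟨hf a b a.2 b.2 h, (a⁻¹ * b).2⟩
  have h2 : (H ⊓ M).FiniteIndex := by
    constructor
    rw [← Subgroup.relIndex_mul_index (inf_le_right : H ⊓ M ≤ M)]
    exact mul_ne_zero h1.index_ne_zero hM.index_ne_zero
  exact Subgroup.finiteIndex_of_le (inf_le_left : H ⊓ M ≤ H)

end Pool.Agent.X260.QF
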