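import Mathlib
import Pool.Agent.X260.QG
set_option autoImplicit false
set_option linter.unusedSimpArgs false
set_option linter.unnecessarySeqFocus false

/-! The subgroup `PP ζ` has finite index, over a finite field. -/

namespace Pool.Agent.X260.QF
open Pool.Agent.H270.Gau (Af Fr xx)
open H270R (W FB GW pA pB pA_apply pB_apply pA_inv pB_inv phi phi_true phi_false phi_strong
  desc_pos desc_neg PV Pres J L th J_PV PV_comp PV_id Pres_comp Pres_inv Theta Theta_spec th_mul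
  cc lam tau tau_pres)

def thH : Fr →* ℤˣ := MonoidHom.mk' th th_mul

instance : Finite (Fr →* ℤˣ) := Finite.of_equiv (Fin 3 → ℤˣ) FreeGroup.lift

def M1 : Subgroup (MulAut Fr) where
  carrier := {σ | Pres (σ : Fr →* Fr)}
  one_mem' := fun _ => rfl
  mul_mem' := fun h1 h2 => Pres_comp h1 h2
  inv_mem' := fun h1 => Pres_inv h1

instance M1_fi : M1.FiniteIndex := by
  apply finiteIndex_of_fun M1 (fun a : MulAut Fr => (fun χ : Fr →* ℤˣ => χ.comp (a : Fr →* Fr)))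
  intro a b h g
  have h1 := congrFun h (thH.comp ((a⁻¹ : MulAut Fr) : Fr →* Fr))
  have h2 := DFunLike.congr_fun h1 g
  have h3 : th ((a⁻¹ : MulAut Fr) (a g)) = th ((a⁻¹ : MulAut Fr) (b g)) := h2
  rw [MulAut.inv_apply_self] at h3
  exact h3.symm

theorem PV_add (a : Fr →* Fr) (x y : W) : PV a (x + y) = PV a x + PV a y := by
  simp only [PV, Prod.fst_add, Prod.snd_add, add_smul]; abel

theorem PV_smul (a : Fr →* Fr) (c : ℤ) (x : W) : PV a (c • x) = c • PV a x := by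
  simp only [PV, Prod.smul_fst, Prod.smul_snd, smul_add, smul_smul, smul_eq_mul]

theorem PV_inv_apply {σ : MulAut Fr} (h1 : Pres (σ : Fr →* Fr)) (y : W) :
    PV ((σ⁻¹ : MulAut Fr) : Fr →* Fr) (PV (σ : Fr →* Fr) y) = y := by
  rw [← PV_comp (Pres_inv h1) h1]
  have : ((σ⁻¹ : MulAut Fr) : Fr →* Fr).comp (σ : Fr →* Fr) = MonoidHom.id Fr := by
    ext g
    show (σ⁻¹ : MulAut Fr) (σ _) = _
    rw [MulAut.inv_apply_self]; rfl
  rw [this, PV_id]

theorem PV_apply_inv {σ : MulAut Fr} (h1 : Pres (σ : Fr →* Fr)) (y : W) :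
    PV (σ : Fr →* Fr) (PV ((σ⁻¹ : MulAut Fr) : Fr →* Fr) y) = y := by
  have := PV_inv_apply (σ := σ⁻¹) (Pres_inv h1) y
  rwa [inv_inv] at this

theorem PV_mul {a b : MulAut Fr} (ha : Pres (a : Fr →* Fr)) (hb : Pres (b : Fr →* Fr)) (v : W) :
    PV ((a * b : MulAut Fr) : Fr →* Fr) v = PV (a : Fr →* Fr) (PV (b : Fr →* Fr) v) :=
  PV_comp ha hb v

def M2 : Subgroup (MulAut Fr) where
  carrier := {σ | Pres (σ : Fr →* Fr) ∧ ∀ x, ∃ y : W, PV (σ : Fr →* Fr) x = x + (4 : ℤ) • y}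
  one_mem' := ⟨fun _ => rfl, fun x => ⟨0, by rw [smul_zero, add_zero]; exact PV_id x⟩⟩
  mul_mem' := by
    rintro a b ⟨h1, h2⟩ ⟨h3, h4⟩
    refine ⟨Pres_comp h1 h3, fun x => ?_⟩
    obtain ⟨y, hy⟩ := h4 x
    obtain ⟨z, hz⟩ := h2 (x + (4 : ℤ) • y)
    refine ⟨y + z, ?_⟩
    rw [PV_mul h1 h3, hy, hz, smul_add, add_assoc]
  inv_mem' := by
    rintro a ⟨h1, h2⟩
    refine ⟨Pres_inv h1, fun x => ?_⟩
    obtain ⟨y, hy⟩ := h2 x
    refine ⟨-PV ((a⁻¹ : MulAut Fr) : Fr →* Fr) y, ?_⟩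
    have h3 := PV_inv_apply h1 x
    rw [hy, PV_add, PV_smul] at h3
    rw [smul_neg, ← sub_eq_add_neg, eq_sub_iff_add_eq]
    exact h3

theorem PV_mt (a : Fr →* Fr) (x : W) :
    PV a x = mt (J (a (xx 0))).1 (J (a (xx 1))).1 (J (a (xx 0))).2 (J (a (xx 1))).2 x := by
  simp only [PV, mt]
  ext
  · simp; ring
  · simp; ring

instance M2_fi : M2.FiniteIndex := by
  apply finiteIndex_rel M2 M1 (fun a : MulAut Fr =>
    ((((J (a (xx 0))).1 : ZMod 4), ((J (a (xx 1))).1 : ZMod 4)),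
      (((J (a (xx 0))).2 : ZMod 4), ((J (a (xx 1))).2 : ZMod 4))))
  intro a b ha hb h
  refine ⟨Pres_comp (Pres_inv ha) hb, fun x => ?_⟩
  simp only [Prod.mk.injEq] at h
  obtain ⟨⟨e1, e2⟩, e3, e4⟩ := h
  have d : ∀ s t : ℤ, (s : ZMod 4) = (t : ZMod 4) → ∃ c : ℤ, t = s + 4 * c := by
    intro s t hst
    rw [ZMod.intCast_eq_intCast_iff_dvd_sub] at hst
    obtain ⟨c, hc⟩ := hst
    exact ⟨c, by push_cast at hc; linarith⟩
  obtain ⟨c1, h1⟩ := d _ _ e1
  obtain ⟨c2, h2⟩ := d _ _ e2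
  obtain ⟨c3, h3⟩ := d _ _ e3
  obtain ⟨c4, h4⟩ := d _ _ e4
  have h5 : PV (b : Fr →* Fr) x = PV (a : Fr →* Fr) x + (4 : ℤ) • mt c1 c2 c3 c4 x := by
    rw [PV_mt, PV_mt]
    show mt (J (b (xx 0))).1 (J (b (xx 1))).1 (J (b (xx 0))).2 (J (b (xx 1))).2 x
      = mt (J (a (xx 0))).1 (J (a (xx 1))).1 (J (a (xx 0))).2 (J (a (xx 1))).2 x + _
    rw [h1, h2, h3, h4]
    simp only [mt]
    ext
    · simp; ring
    · simp; ring
  refine ⟨PV ((a⁻¹ : MulAut Fr) : Fr →* Fr) (mt c1 c2 c3 c4 x), ?_⟩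
  rw [PV_mul (Pres_inv ha) hb, h5, PV_add, PV_inv_apply ha, PV_smul]

theorem mt_comp_det {a b c d a' b' c' d' : ℤ}
    (h : ∀ x, mt a b c d (mt a' b' c' d' x) = x) : (a * d - b * c) * (a' * d' - b' * c') = 1 := by
  have h1 := h (1, 0)
  have h2 := h (0, 1)
  simp only [mt, Prod.mk.injEq, mul_one, mul_zero, add_zero, zero_add] at h1 h2
  obtain ⟨h3, h4⟩ := h1
  obtain ⟨h5, h6⟩ := h2
  have : (a * d - b * c) * (a' * d' - b' * c')
     = (a * a' + b * c') * (c * b' + d * d') - (a * b' + b * d') * (c * a' + d * c') := by ring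
  rw [this, h3, h4, h5, h6]; norm_num

theorem M2_phi {σ : MulAut Fr} (h : σ ∈ M2) :
    ∃ u : FB, ∃ ε : ℤ, ε * ε = 1 ∧ ∀ x, PV (σ : Fr →* Fr) x = ε • phi u x := by
  obtain ⟨h1, h2⟩ := h
  have h3 := PV_mt (σ : Fr →* Fr)
  set a := (J ((σ : Fr →* Fr) (xx 0))).1
  set b := (J ((σ : Fr →* Fr) (xx 1))).1
  set c := (J ((σ : Fr →* Fr) (xx 0))).2
  set d := (J ((σ : Fr →* Fr) (xx 1))).2
  have h4 := PV_mt ((σ⁻¹ : MulAut Fr) : Fr →* Fr)
  set a' := (J (((σ⁻¹ : MulAut Fr) : Fr →* Fr) (xx 0))).1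
  set b' := (J (((σ⁻¹ : MulAut Fr) : Fr →* Fr) (xx 1))).1
  set c' := (J (((σ⁻¹ : MulAut Fr) : Fr →* Fr) (xx 0))).2
  set d' := (J (((σ⁻¹ : MulAut Fr) : Fr →* Fr) (xx 1))).2
  have h5 : (a * d - b * c) * (a' * d' - b' * c') = 1 := by
    apply mt_comp_det
    intro x
    rw [← h4, ← h3]
    exact PV_apply_inv h1 x
  obtain ⟨y, hy⟩ := h2 (1, 0)
  obtain ⟨z, hz⟩ := h2 (0, 1)
  rw [h3] at hy hz
  have e1 := congrArg Prod.fst hy
  have e2 := congrArg Prod.snd hy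
  have e3 := congrArg Prod.fst hz
  have e4 := congrArg Prod.snd hz
  simp only [mt, Prod.fst_add, Prod.snd_add, Prod.smul_fst, Prod.smul_snd, smul_eq_mul] at e1 e2 e3 e4
  have hdet : a * d - b * c = 1 := by
    have h6 : a * d - b * c = 1 ∨ a * d - b * c = -1 := Int.isUnit_iff.1 (IsUnit.of_mul_eq_one _ h5)
    rcases h6 with h6 | h6
    · exact h6
    · exfalso
      have e5 : a = 1 + 4 * y.1 := by linarith
      have e6 : d = 1 + 4 * z.2 := by linarith
      have e7 : c = 4 * y.2 := by linarith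
      rw [e5, e6, e7] at h6
      have : (4 : ℤ) * (y.1 + z.2 + 4 * y.1 * z.2 - b * y.2) = -2 := by linear_combination h6
      omega
  obtain ⟨u, ε, h6, h7⟩ := sanov (a.natAbs + c.natAbs) a b c d le_rfl hdet (by omega) (by omega) (by omega)
  exact ⟨u, ε, h6, fun x => by rw [h3, h7]⟩

section
variable {K : Type} [Field K] [Finite K]

instance : Finite (Af K) := by
  apply Finite.of_injective (fun a : Af K => (a.u, a.v))
  intro a b h
  simp only [Prod.mk.injEq] at h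
  exact Af.ext h.1 h.2

open Classical in
instance PP_fi (ζ : Kˣ) : (PP ζ).FiniteIndex := by
  apply finiteIndex_rel (PP ζ) M2 (fun a : MulAut Fr =>
    if h : a ∈ M2 then psi ζ (M2_phi h).choose else 1)
  intro a b ha hb h
  simp only [dif_pos ha, dif_pos hb] at h
  obtain ⟨ε, h1, h2⟩ := (M2_phi ha).choose_spec
  obtain ⟨ε', h1', h2'⟩ := (M2_phi hb).choose_spec
  set u := (M2_phi ha).choose
  set u' := (M2_phi hb).choose
  refine ⟨Pres_comp (Pres_inv ha.1) hb.1, u⁻¹ * u', ?_, ε * ε', by linear_combination h1 * ε' * ε' + h1', ?_⟩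
  · rw [map_mul, map_inv, h, inv_mul_cancel]
  · intro x
    rw [PV_mul (Pres_inv ha.1) hb.1, h2', PV_smul]
    have h3 := PV_inv_apply ha.1 (ε • phi u⁻¹ (phi u' x))
    rw [h2, map_smul, smul_smul, h1, one_smul] at h3
    have h4 : phi u (phi u⁻¹ (phi u' x)) = phi u' x := by
      rw [← LinearEquiv.mul_apply, ← map_mul, mul_inv_cancel, map_one]; rfl
    rw [h4] at h3
    rw [h3, smul_smul, map_mul, mul_comm ε']
    rfl

end

/-- the finite quotients -/
theorem exists_quot {k p : ℕ} (hk : 3 ≤ k) [Fact p.Prime] (hp : p % k = 1) :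
    ∃ N : Subgroup (MulAut Fr), N.Normal ∧ N.FiniteIndex ∧ lam ^ (2 * k) ∈ N ∧ p ∣ N.index := by
  obtain ⟨ζ, hζ⟩ : ∃ ζ : (ZMod p)ˣ, orderOf ζ = k := by
    have h1 : k ∣ Nat.card (ZMod p)ˣ := by
      rw [Nat.card_eq_fintype_card, ZMod.card_units_eq_totient, Nat.totient_prime (Fact.out)]
      exact (Nat.modEq_iff_dvd' (Nat.Prime.one_lt Fact.out).le).1 (by rw [Nat.ModEq, hp, Nat.mod_eq_of_lt (by omega)])
    exact IsCyclic.exists_ofOrder_eq_natCard.elim fun g hg => by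
      obtain ⟨c, hc⟩ := h1
      refine ⟨g ^ c, ?_⟩
      have hc0 : c ≠ 0 := by
        rintro rfl
        rw [mul_zero] at hc
        exact Nat.card_pos.ne' hc
      rw [orderOf_pow_of_dvd hc0 (by rw [hg, hc]; exact Dvd.intro_left k rfl), hg, hc,
        Nat.mul_div_cancel _ (Nat.pos_of_ne_zero hc0)]
  have z0 : ζ ^ k = 1 := by rw [← hζ, pow_orderOf_eq_one]
  have z1 : ζ ≠ 1 := by
    rintro rfl
    rw [orderOf_one] at hζ
    omega
  have z2 : ζ ^ 2 ≠ 1 := by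
    intro h
    have := orderOf_dvd_of_pow_eq_one h
    rw [hζ] at this
    have := Nat.le_of_dvd (by norm_num) this
    omega
  refine ⟨(PP ζ).normalCore, inferInstance, inferInstance, ?_, ?_⟩
  · intro a
    exact ⟨tau_pres a k, tau_SS z0 z1 z2 (by omega) a⟩
  · have : Finite (MulAut Fr ⧸ (PP ζ).normalCore) := Subgroup.finite_quotient_of_finiteIndex
    have h1 : (QuotientGroup.mk' (PP ζ).normalCore (Theta cc)) ^ (PP ζ).normalCore.index = 1 := by
      rw [Subgroup.index]; exact pow_card_eq_one'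
    set n := (PP ζ).normalCore.index
    rw [← map_pow, ← map_pow] at h1
    have h2 : Theta (cc ^ n) ∈ (PP ζ).normalCore := (QuotientGroup.eq_one_iff _).1 h1
    obtain ⟨_, u, h3, ε, h4, h5⟩ := Subgroup.normalCore_le _ h2
    have h6 : cc ^ n * u⁻¹ = 1 := by
      apply phi_strong (ε := ε) _ h4
      intro v
      have h7 := h5 (phi u⁻¹ v)
      rw [(Theta_spec (cc ^ n)).2] at h7
      rw [map_mul]
      show phi (cc ^ n) (phi u⁻¹ v) = _
      rw [h7]
      congr 1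
      rw [← LinearEquiv.mul_apply, ← map_mul, mul_inv_cancel, map_one]; rfl
    have h8 : cc ^ n = u := by
      rwa [mul_inv_eq_one] at h6
    have h9 := psi_cc_ne ζ z1 (k := n) (by rw [h8, h3])
    exact (ZMod.natCast_eq_zero_iff _ _).1 h9

theorem infinite_quot {k : ℕ} (hk : 3 ≤ k) :
    Set.Infinite {N : Subgroup (MulAut Fr ⧸ Subgroup.normalClosure ({lam ^ (2 * k)} : Set (MulAut Fr))) |
      N.Normal ∧ N.FiniteIndex} := by
  intro hfin
  set R := Subgroup.normalClosure ({lam ^ (2 * k)} : Set (MulAut Fr)) with hR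
  obtain ⟨B, hB⟩ := (hfin.image (fun N => N.index)).bddAbove
  obtain ⟨p, hp, hpB, hpk⟩ := Nat.exists_prime_gt_modEq_one (k := k) (B + 1) (by omega)
  haveI : Fact p.Prime := ⟨hp⟩
  obtain ⟨N, h1, h2, h3, h4⟩ := exists_quot (k := k) (p := p) hk (by
    have : p % k = 1 % k := hpk
    rwa [Nat.mod_eq_of_lt (by omega : 1 < k)] at this)
  have hRN : R ≤ N := by
    apply Subgroup.normalClosure_le_normal
    rw [Set.singleton_subset_iff]; exact h3
  have hidx : (N.map (QuotientGroup.mk' R)).index = N.index := by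
    apply Subgroup.index_map_eq _ (QuotientGroup.mk'_surjective R)
    rw [QuotientGroup.ker_mk']; exact hRN
  have hmem : N.map (QuotientGroup.mk' R) ∈ {N : Subgroup (MulAut Fr ⧸ R) | N.Normal ∧ N.FiniteIndex} := by
    refine ⟨Subgroup.Normal.map h1 _ (QuotientGroup.mk'_surjective R), ⟨?_⟩⟩
    rw [hidx]; exact h2.index_ne_zero
  have h5 := hB ⟨_, hmem, rfl⟩
  simp only [hidx] at h5
  have h6 := Nat.le_of_dvd (Nat.pos_of_ne_zero h2.index_ne_zero) h4
  omega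

end Pool.Agent.X260.QF
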